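import Pool.Agent.J4.H83.FV.Super

/-!
# Two-sided bounds for the free energy, minimal distance one
-/

set_option autoImplicit false

open MeasureTheory Set Filter Topology

namespace Pool.Agent.J4.H83.FV

/-- the partition function of the box as a real number -/
noncomputable def zr (L : ℝ) (N : ℕ) : ℝ := (zz (box 0 L) N).toReal

lemma zr_eq (L : ℝ) (N : ℕ) : zr L N = (volume (A N L)).toReal / N.factorial := by
  unfold zr zz
  rw [ENNReal.toReal_div, ENNReal.toReal_natCast]
  rfl

lemma A_le (N : ℕ) {L : ℝ} (hL : 0 ≤ L) : volume (A N L) ≤ ENNReal.ofReal ((L ^ 2) ^ N) := by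
  calc volume (A N L) ≤ volume (Set.pi univ fun _ : Fin N => box 0 L) :=
        measure_mono fun x hx i _ => hx.1 i
    _ = _ := by
        rw [volume_pi_pi, Finset.prod_const, Finset.card_univ, Fintype.card_fin, vol_box hL,
          ← ENNReal.ofReal_pow (by positivity), sub_zero]

lemma A_ne_top (N : ℕ) {L : ℝ} (hL : 0 ≤ L) : volume (A N L) ≠ ⊤ :=
  ((A_le N hL).trans_lt ENNReal.ofReal_lt_top).ne

/-- the close packing density -/
noncomputable def rc : ℝ := 2 / √3

lemma rc_pos : 0 < rc := by unfold rc; positivity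

lemma rc_lt : rc < 1.2 := by
  have h3 := sqrt3_sq
  have h3p : 0 < √3 := by positivity
  unfold rc
  rw [div_lt_iff₀ h3p]
  nlinarith

lemma rc_gt : 1 < rc := by
  have := sqrt3_lt
  have h3p : 0 < √3 := by positivity
  unfold rc
  rw [lt_div_iff₀ h3p]
  linarith

lemma half_rc : √3 / 2 = 1 / rc := by
  have h3p : 0 < √3 := by positivity
  unfold rc
  field_simp

theorem asym : ∃ C : ℝ, 0 < C ∧ ∀ ρ : ℝ, 0 < ρ → ρ < rc → ∀ (L : ℕ → ℝ) (N : ℕ → ℕ),
    Tendsto L atTop atTop → Tendsto (fun k => (N k : ℝ) / L k ^ 2) atTop (𝓝 ρ) →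
    ∀ᶠ k in atTop, 0 < N k ∧ 0 < zr (L k) (N k) ∧
      |-(1 / (N k : ℝ)) * Real.log (zr (L k) (N k)) -
        (Real.log ρ - 2 * Real.log (1 - ρ / rc))| ≤ C := by
  obtain ⟨K, hK, hup⟩ := upper
  refine ⟨2 * Real.log 8 + 4 * K + 10, by
    have : 0 < Real.log 8 := Real.log_pos (by norm_num)
    positivity, fun ρ hρ hρc L N hL hN => ?_⟩
  have hrc := rc_pos
  have hrc1 := rc_gt
  have hrc2 := rc_lt
  have h3p : 0 < √3 := by positivity
  set t := ρ / rc with ht
  have ht0 : 0 < t := div_pos hρ hrc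
  have ht1 : t < 1 := by rw [ht, div_lt_one hrc]; exact hρc
  have htρ : ρ = rc * t := by rw [ht]; field_simp
  have hlog8 : 0 < Real.log 8 := Real.log_pos (by norm_num)
  have hlog2 : Real.log 8 = 3 * Real.log 2 := by
    rw [show (8 : ℝ) = 2 ^ 3 by norm_num, Real.log_pow]; norm_num
  -- the spacing
  set s₀ := 1 / √t with hs₀
  have hst : 0 < √t := Real.sqrt_pos.2 ht0
  have hst1 : √t < 1 := by
    rw [show (1 : ℝ) = √1 by simp]
    exact Real.sqrt_lt_sqrt ht0.le ht1
  have hs₀1 : 1 < s₀ := by rw [hs₀, lt_div_iff₀ hst]; linarith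
  set s := (1 + s₀) / 2 with hs
  have hs1 : 1 < s := by rw [hs]; linarith
  have hs2 : s < s₀ := by rw [hs]; linarith
  have hs0 : 0 < s := by linarith
  have hsq : s₀ ^ 2 = 1 / t := by
    rw [hs₀, div_pow, Real.sq_sqrt ht0.le, one_pow]
  have hdens : ρ < rc / s ^ 2 := by
    rw [lt_div_iff₀ (by positivity), htρ]
    have h1 : s ^ 2 < 1 / t := by rw [← hsq]; exact pow_lt_pow_left₀ hs2 hs0.le two_ne_zero
    calc rc * t * s ^ 2 < rc * t * (1 / t) := mul_lt_mul_of_pos_left h1 (by positivity)
      _ = rc := by field_simp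
  -- limits of the numbers of sites
  have hLpos : ∀ᶠ k in atTop, 1 ≤ L k := hL.eventually_ge_atTop 1
  have hM1 : Tendsto (fun k => (⌊(1 / s) * L k⌋₊ : ℝ) / L k) atTop (𝓝 (1 / s)) :=
    (tendsto_nat_floor_mul_div_atTop (by positivity)).comp hL
  have hM2 : Tendsto (fun k => (⌊(rc / s) * L k⌋₊ : ℝ) / L k) atTop (𝓝 (rc / s)) :=
    (tendsto_nat_floor_mul_div_atTop (by positivity)).comp hL
  have hM12 : Tendsto (fun k => ((⌊(1 / s) * L k⌋₊ : ℝ) * (⌊(rc / s) * L k⌋₊ : ℝ)) / L k ^ 2) atTop
      (𝓝 (rc / s ^ 2)) := by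
    have h1 := hM1.mul hM2
    have e : 1 / s * (rc / s) = rc / s ^ 2 := by field_simp
    rw [e] at h1
    refine h1.congr fun k => ?_
    rw [div_mul_div_comm, pow_two]
  have hNM : ∀ᶠ k in atTop, N k ≤ ⌊(1 / s) * L k⌋₊ * ⌊(rc / s) * L k⌋₊ := by
    have h1 := hN.eventually_lt hM12 hdens
    filter_upwards [h1, hLpos] with k hk hk1
    have h2 : (0 : ℝ) < L k ^ 2 := by positivity
    rw [div_lt_div_iff_of_pos_right h2] at hk
    exact_mod_cast hk.le
  have hNpos : ∀ᶠ k in atTop, 0 < N k := by
    have h1 := hN.eventually (lt_mem_nhds hρ)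
    filter_upwards [h1] with k hk
    rcases Nat.eq_zero_or_pos (N k) with h | h
    · rw [h] at hk; simp at hk
    · exact h
  -- the lower bound for `z`
  have hlow : ∀ᶠ k in atTop, (((s - 1) / 2) ^ 2) ^ (N k) ≤ zr (L k) (N k) := by
    filter_upwards [hNM, hLpos] with k hk hk1
    have h0 : (0 : ℝ) ≤ L k := by linarith
    have h1 : s * (⌊(1 / s) * L k⌋₊ : ℝ) ≤ L k := by
      have := Nat.floor_le (show 0 ≤ (1 / s) * L k by positivity)
      calc s * (⌊(1 / s) * L k⌋₊ : ℝ) ≤ s * ((1 / s) * L k) := mul_le_mul_of_nonneg_left this hs0.le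
        _ = L k := by field_simp
    have h2 : √3 / 2 * s * (⌊(rc / s) * L k⌋₊ : ℝ) ≤ L k := by
      have := Nat.floor_le (show 0 ≤ (rc / s) * L k by positivity)
      rw [half_rc]
      calc 1 / rc * s * (⌊(rc / s) * L k⌋₊ : ℝ) ≤ 1 / rc * s * ((rc / s) * L k) :=
            mul_le_mul_of_nonneg_left this (by positivity)
        _ = L k := by field_simp
    have h3 := lower hs1 h1 h2 hk
    have h4 := ENNReal.toReal_mono (A_ne_top (N k) h0) h3
    rw [ENNReal.toReal_ofReal (by positivity)] at h4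
    rw [zr_eq, le_div_iff₀ (by positivity)]
    linarith
  -- the upper bound for `z`, low density
  have hsmall : ∀ᶠ k in atTop, zr (L k) (N k) ≤ (L k ^ 2) ^ (N k) / (N k).factorial := by
    filter_upwards [hLpos] with k hk1
    have h0 : (0 : ℝ) ≤ L k := by linarith
    rw [zr_eq]
    refine div_le_div_of_nonneg_right ?_ (by positivity)
    have h4 := ENNReal.toReal_mono ENNReal.ofReal_ne_top (A_le (N k) h0)
    rwa [ENNReal.toReal_ofReal (by positivity)] at h4
  -- the upper bound for `z`, high density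
  have hbig : ∀ᶠ k in atTop, zr (L k) (N k) ≤
      Real.exp (K * L k ^ 2) * (2 * (1 - t)) ^ (2 * N k) := by
    have hlim : Tendsto (fun k => ((L k + 2 * R) / L k) ^ 2 - √3 / 2 * ((N k : ℝ) / L k ^ 2)) atTop
        (𝓝 (1 ^ 2 - √3 / 2 * ρ)) := by
      refine Tendsto.sub (Tendsto.pow ?_ 2) (hN.const_mul _)
      have h1 : Tendsto (fun k => 1 + 2 * R / L k) atTop (𝓝 (1 + 0)) :=
        tendsto_const_nhds.add (hL.const_div_atTop _)
      rw [add_zero] at h1
      refine h1.congr' ?_
      filter_upwards [hLpos] with k hk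
      have : L k ≠ 0 := by linarith
      field_simp
    have hlt : (1 : ℝ) ^ 2 - √3 / 2 * ρ < 2 * (1 - t) := by
      rw [half_rc, one_pow, one_div, inv_mul_eq_div, ← ht]; linarith
    have h1 := hlim.eventually (gt_mem_nhds hlt)
    filter_upwards [h1, hLpos] with k hk hk1
    have h0 : (0 : ℝ) < L k := by linarith
    have h2 : (0 : ℝ) < L k ^ 2 := by positivity
    have h3 : (L k + 2 * R) ^ 2 - √3 / 2 * (N k) ≤ 2 * (1 - t) * L k ^ 2 := by
      have h4 : (((L k + 2 * R) / L k) ^ 2 - √3 / 2 * ((N k : ℝ) / L k ^ 2)) * L k ^ 2 =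
          (L k + 2 * R) ^ 2 - √3 / 2 * (N k) := by
        field_simp
      rw [← h4]
      exact mul_le_mul_of_nonneg_right hk.le h2.le
    have h5 := hup (N k) (L k) (2 * (1 - t)) hk1 (by linarith) h3
    have h6 := ENNReal.toReal_mono ENNReal.ofReal_ne_top h5
    have h7 : 0 < 2 * (1 - t) := by linarith
    rw [ENNReal.toReal_ofReal (by positivity)] at h6
    rw [zr_eq, div_le_iff₀ (by positivity)]
    linarith
  have hL2N : ∀ᶠ k in atTop, L k ^ 2 / (N k : ℝ) < 2 / ρ := by
    have h1 : Tendsto (fun k => L k ^ 2 / (N k : ℝ)) atTop (𝓝 ρ⁻¹) := by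
      refine (hN.inv₀ hρ.ne').congr fun k => ?_
      rw [inv_div]
    have h2 : ρ⁻¹ < 2 / ρ := by
      rw [← one_div]
      exact div_lt_div_of_pos_right (by norm_num) hρ
    exact h1.eventually (gt_mem_nhds h2)
  have hNL : ∀ᶠ k in atTop, ρ / 2 < (N k : ℝ) / L k ^ 2 :=
    hN.eventually (lt_mem_nhds (by linarith))
  filter_upwards [hNpos, hlow, hsmall, hbig, hL2N, hNL, hLpos] with k hk hk1 hk2 hk3 hk4 hk5 hk6
  have hNk : (0 : ℝ) < N k := by exact_mod_cast hk
  have hz : 0 < zr (L k) (N k) := lt_of_lt_of_le (by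
    have : 0 < (s - 1) / 2 := by linarith
    positivity) hk1
  refine ⟨hk, hz, ?_⟩
  set y := -(1 / (N k : ℝ)) * Real.log (zr (L k) (N k)) with hy
  have hyN : Real.log (zr (L k) (N k)) = -(N k : ℝ) * y := by
    rw [hy]; field_simp
  have h1t : 0 < 1 - t := by linarith
  have hlt0 : Real.log (1 - t) ≤ 0 := Real.log_nonpos h1t.le (by linarith)
  have hlogrc : 0 < Real.log rc := Real.log_pos hrc1
  have hlogrc2 : Real.log rc < 1 := by
    have := Real.log_le_sub_one_of_pos hrc
    linarith
  have hlogρ : Real.log ρ = Real.log rc + Real.log t := by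
    rw [htρ, Real.log_mul hrc.ne' ht0.ne']
  have hlogt : Real.log t ≤ 0 := Real.log_nonpos ht0.le ht1.le
  rw [abs_le]
  constructor
  · -- lower bound for `y`
    rcases le_or_gt t (1 / 2) with hhalf | hhalf
    · -- low density
      have e1 : Real.log (zr (L k) (N k)) ≤ N k * Real.log (L k ^ 2) - (N k * Real.log (N k) - N k) := by
        have hL2 : 0 < L k ^ 2 := by positivity
        refine (Real.log_le_log hz hk2).trans ?_
        rw [Real.log_div (by positivity) (by positivity), Real.log_pow]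
        have hst := Nat.factorial_pos (N k)
        have hf : N k * Real.log (N k) - N k ≤ Real.log ((N k).factorial) := by
          have h8 := Real.pow_div_factorial_le_exp (N k : ℝ) hNk.le (N k)
          rw [div_le_iff₀ (by positivity)] at h8
          have h9 := Real.log_le_log (by positivity) h8
          rw [Real.log_pow, Real.log_mul (Real.exp_pos _).ne' (by positivity), Real.log_exp] at h9
          linarith
        linarith
      have e2 : Real.log (ρ / 2) ≤ Real.log ((N k : ℝ) / L k ^ 2) :=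
        Real.log_le_log (by positivity) hk5.le
      rw [Real.log_div hNk.ne' (by positivity), Real.log_div hρ.ne' two_ne_zero] at e2
      have e3 : -2 * Real.log (1 - t) ≤ 2 * Real.log 2 := by
        have : Real.log (1 / 2) ≤ Real.log (1 - t) := Real.log_le_log (by norm_num) (by linarith)
        rw [one_div, Real.log_inv] at this
        linarith
      rw [hyN] at e1
      have e4 : Real.log ρ - Real.log 2 - 1 ≤ y := by
        have : (N k : ℝ) * (Real.log (N k) - Real.log (L k ^ 2) - 1) ≤ N k * y := by linarith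
        have := le_of_mul_le_mul_left this hNk
        linarith
      have hlog2p : 0 < Real.log 2 := Real.log_pos (by norm_num)
      linarith
    · have h7 : 0 < 2 * (1 - t) := by linarith
      have e1 : Real.log (zr (L k) (N k)) ≤ K * L k ^ 2 + (2 * N k) * (Real.log 2 + Real.log (1 - t)) := by
        refine (Real.log_le_log hz hk3).trans (le_of_eq ?_)
        rw [Real.log_mul (by positivity) (by positivity), Real.log_exp, Real.log_pow,
          Real.log_mul two_ne_zero h1t.ne']
        push_cast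
        ring
      rw [hyN] at e1
      have e2 : -y ≤ K * (L k ^ 2 / N k) + 2 * (Real.log 2 + Real.log (1 - t)) := by
        have : (N k : ℝ) * (-y) ≤ N k * (K * (L k ^ 2 / N k) + 2 * (Real.log 2 + Real.log (1 - t))) := by
          have e3 : N k * (K * (L k ^ 2 / N k) + 2 * (Real.log 2 + Real.log (1 - t))) =
              K * L k ^ 2 + (2 * N k) * (Real.log 2 + Real.log (1 - t)) := by field_simp
          rw [e3]; linarith
        exact le_of_mul_le_mul_left this hNk
      have e4 : L k ^ 2 / N k ≤ 4 := by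
        refine hk4.le.trans ?_
        rw [div_le_iff₀ hρ, htρ]
        nlinarith
      have e5 : K * (L k ^ 2 / N k) ≤ K * 4 := mul_le_mul_of_nonneg_left e4 hK.le
      have hlog2p : 0 < Real.log 2 := Real.log_pos (by norm_num)
      linarith
  · -- upper bound for `y`
    have e1 : (N k : ℝ) * (2 * Real.log ((s - 1) / 2)) ≤ Real.log (zr (L k) (N k)) := by
      have h9 : 0 < (s - 1) / 2 := by linarith
      refine le_trans (le_of_eq ?_) (Real.log_le_log (by positivity) hk1)
      rw [Real.log_pow, Real.log_pow]; norm_num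
    rw [hyN] at e1
    have e2 : y ≤ -2 * Real.log ((s - 1) / 2) := by
      have : (N k : ℝ) * y ≤ N k * (-2 * Real.log ((s - 1) / 2)) := by linarith
      exact le_of_mul_le_mul_left this hNk
    have e3 : (1 - t) / (8 * √t) ≤ (s - 1) / 2 := by
      have : (s - 1) / 2 = (1 - √t) / (4 * √t) := by
        rw [hs, hs₀]; field_simp; ring
      rw [this, div_le_div_iff₀ (by positivity) (by positivity)]
      have h10 : t = √t ^ 2 := (Real.sq_sqrt ht0.le).symm
      have h11 : 1 - t = (1 - √t) * (1 + √t) := by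
        conv_lhs => rw [h10]
        ring
      rw [h11]
      have h12 : 0 < 1 - √t := by linarith
      have h13 : (1 - √t) * (1 + √t) * (4 * √t) = (1 - √t) * √t * (4 * (1 + √t)) := by ring
      have h14 : (1 - √t) * (8 * √t) = (1 - √t) * √t * 8 := by ring
      rw [h13, h14]
      exact mul_le_mul_of_nonneg_left (by linarith) (by positivity)
    have e4 : Real.log ((1 - t) / (8 * √t)) ≤ Real.log ((s - 1) / 2) :=
      Real.log_le_log (by positivity) e3
    rw [Real.log_div h1t.ne' (by positivity), Real.log_mul (by norm_num) hst.ne',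
      Real.log_sqrt ht0.le] at e4
    linarith

end Pool.Agent.J4.H83.FV
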