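import Pool.Agent.J4.H83.FV.Asym

/-!
# Convexity of the free energy, bounds for the pressure, minimal distance one
-/

set_option autoImplicit false

open MeasureTheory Set Filter Topology

namespace Pool.Agent.J4.H83.FV

/-- `y` is the limiting free energy per particle at density `ρ` -/
def IsFE (ρ y : ℝ) : Prop :=
  ∀ (L : ℕ → ℝ) (N : ℕ → ℕ), Tendsto L atTop atTop →
    Tendsto (fun k => (N k : ℝ) / L k ^ 2) atTop (𝓝 ρ) →
    Tendsto (fun k => -(1 / (N k : ℝ)) * Real.log (zr (L k) (N k))) atTop (𝓝 y)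

lemma prod_step (a b : ENNReal) (p q : ℕ) :
    ∏ i ∈ Finset.range (p + q), (if i < p then a else b) = a ^ p * b ^ q := by
  rw [Finset.prod_range_add]
  congr 1
  · rw [Finset.prod_congr rfl fun i hi => if_pos (Finset.mem_range.1 hi), Finset.prod_const,
      Finset.card_range]
  · rw [Finset.prod_congr rfl fun i _ => if_neg (by omega), Finset.prod_const, Finset.card_range]

lemma sum_step (a b : ℕ) (p q : ℕ) :
    ∑ i ∈ Finset.range (p + q), (if i < p then a else b) = p * a + q * b := by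
  rw [Finset.sum_range_add]
  congr 1
  · rw [Finset.sum_congr rfl fun i hi => if_pos (Finset.mem_range.1 hi), Finset.sum_const,
      Finset.card_range, smul_eq_mul]
  · rw [Finset.sum_congr rfl fun i _ => if_neg (by omega), Finset.sum_const, Finset.card_range,
      smul_eq_mul]

/-- mixtures of two densities -/
theorem mix {l : ℝ} (hl : 0 ≤ l) (m p n₁ n₂ : ℕ) (hp : p ≤ m * m) :
    zz (box 0 l) n₁ ^ p * zz (box 0 l) n₂ ^ (m * m - p) ≤
      zz (box 0 (m * (l + 1))) (p * n₁ + (m * m - p) * n₂) := by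
  have h := zz_grid hl m le_rfl (fun k : Fin m × Fin m =>
    if (finProdFinEquiv k : ℕ) < p then n₁ else n₂)
  have e1 : ∏ k : Fin m × Fin m, zz (box 0 l) (if (finProdFinEquiv k : ℕ) < p then n₁ else n₂) =
      zz (box 0 l) n₁ ^ p * zz (box 0 l) n₂ ^ (m * m - p) := by
    rw [Equiv.prod_comp finProdFinEquiv (fun i : Fin (m * m) =>
      zz (box 0 l) (if (i : ℕ) < p then n₁ else n₂)),
      Fin.prod_univ_eq_prod_range (fun i => zz (box 0 l) (if i < p then n₁ else n₂)) (m * m)]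
    obtain ⟨q, hq⟩ := Nat.exists_eq_add_of_le hp
    rw [hq, Nat.add_sub_cancel_left, ← prod_step]
    refine Finset.prod_congr rfl fun i _ => ?_
    split_ifs <;> rfl
  have e2 : ∑ k : Fin m × Fin m, (if (finProdFinEquiv k : ℕ) < p then n₁ else n₂) =
      p * n₁ + (m * m - p) * n₂ := by
    rw [Equiv.sum_comp finProdFinEquiv (fun i : Fin (m * m) => if (i : ℕ) < p then n₁ else n₂),
      Fin.sum_univ_eq_sum_range (fun i => if i < p then n₁ else n₂) (m * m)]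
    obtain ⟨q, hq⟩ := Nat.exists_eq_add_of_le hp
    rw [hq, Nat.add_sub_cancel_left, ← sum_step]
  rw [e1, e2] at h
  exact h

theorem conv_rho (f : ℝ → ℝ) (hf : ∀ ρ, 0 < ρ → ρ < rc → IsFE ρ (f ρ)) {ρ₁ ρ₂ θ : ℝ}
    (h1 : 0 < ρ₁) (h1' : ρ₁ < rc) (h2 : 0 < ρ₂) (h2' : ρ₂ < rc) (hθ : 0 ≤ θ) (hθ' : θ ≤ 1) :
    (θ * ρ₁ + (1 - θ) * ρ₂) * f (θ * ρ₁ + (1 - θ) * ρ₂) ≤ θ * ρ₁ * f ρ₁ + (1 - θ) * ρ₂ * f ρ₂ := by
  obtain ⟨C, -, has⟩ := asym
  set ρ := θ * ρ₁ + (1 - θ) * ρ₂ with hρ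
  have hθ1 : 0 ≤ 1 - θ := by linarith
  have hρ0 : 0 < ρ := by
    rcases hθ.eq_or_lt with h | h
    · rw [hρ, ← h]; simpa using h2
    · have : 0 < θ * ρ₁ := by positivity
      have : 0 ≤ (1 - θ) * ρ₂ := by positivity
      linarith
  have hρc : ρ < rc := by
    rw [hρ]
    rcases hθ.eq_or_lt with h | h
    · rw [← h]; simpa using h2'
    · have : θ * ρ₁ < θ * rc := mul_lt_mul_of_pos_left h1' h
      have : (1 - θ) * ρ₂ ≤ (1 - θ) * rc := mul_le_mul_of_nonneg_left h2'.le hθ1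
      linarith
  -- sequences
  set j : ℕ → ℝ := fun k => (k : ℝ) with hj
  have hjl : Tendsto j atTop atTop := tendsto_natCast_atTop_atTop
  have hj2 : Tendsto (fun k : ℕ => (k : ℝ) ^ 2) atTop atTop :=
    (tendsto_pow_atTop two_ne_zero).comp hjl
  set n₁ : ℕ → ℕ := fun k => ⌊ρ₁ * (k : ℝ) ^ 2⌋₊ with hn₁
  set n₂ : ℕ → ℕ := fun k => ⌊ρ₂ * (k : ℝ) ^ 2⌋₊ with hn₂
  set p : ℕ → ℕ := fun k => ⌊θ * (k : ℝ) ^ 2⌋₊ with hp
  have L1 : Tendsto (fun k => (n₁ k : ℝ) / (k : ℝ) ^ 2) atTop (𝓝 ρ₁) :=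
    (tendsto_nat_floor_mul_div_atTop h1.le).comp hj2
  have L2 : Tendsto (fun k => (n₂ k : ℝ) / (k : ℝ) ^ 2) atTop (𝓝 ρ₂) :=
    (tendsto_nat_floor_mul_div_atTop h2.le).comp hj2
  have Lp : Tendsto (fun k => (p k : ℝ) / (k : ℝ) ^ 2) atTop (𝓝 θ) :=
    (tendsto_nat_floor_mul_div_atTop hθ).comp hj2
  have hpk : ∀ k, p k ≤ k * k := by
    intro k
    have : (⌊θ * (k : ℝ) ^ 2⌋₊ : ℝ) ≤ θ * (k : ℝ) ^ 2 := Nat.floor_le (by positivity)
    have h4 : θ * (k : ℝ) ^ 2 ≤ 1 * (k : ℝ) ^ 2 := mul_le_mul_of_nonneg_right hθ' (by positivity)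
    have h5 : ((p k : ℕ) : ℝ) ≤ ((k * k : ℕ) : ℝ) := by push_cast; rw [hp]; nlinarith
    exact_mod_cast h5
  have hq : ∀ k, ((k * k - p k : ℕ) : ℝ) = (k : ℝ) ^ 2 - p k := by
    intro k
    rw [Nat.cast_sub (hpk k)]
    push_cast
    ring
  have hk0 : ∀ᶠ k : ℕ in atTop, 0 < k := eventually_gt_atTop 0
  have Lq : Tendsto (fun k : ℕ => ((k * k - p k : ℕ) : ℝ) / (k : ℝ) ^ 2) atTop (𝓝 (1 - θ)) := by
    refine (tendsto_const_nhds.sub Lp).congr' ?_
    filter_upwards [hk0] with k hk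
    have : (k : ℝ) ≠ 0 := by positivity
    rw [hq]
    field_simp
  set K : ℕ → ℝ := fun k => (k : ℝ) * ((k : ℝ) + 1) with hK
  have LK : Tendsto K atTop atTop := hjl.atTop_mul_atTop₀ (tendsto_atTop_add_const_right _ 1 hjl)
  set M : ℕ → ℕ := fun k => p k * n₁ k + (k * k - p k) * n₂ k with hM
  have Lr : Tendsto (fun k : ℕ => (k : ℝ) ^ 2 / ((k : ℝ) + 1) ^ 2) atTop (𝓝 1) := by
    have h5 : Tendsto (fun k : ℕ => (1 : ℝ) - 1 / ((k : ℝ) + 1)) atTop (𝓝 (1 - 0)) :=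
      tendsto_const_nhds.sub tendsto_one_div_add_atTop_nhds_zero_nat
    have h6 := h5.pow 2
    rw [sub_zero, one_pow] at h6
    refine h6.congr fun k => ?_
    have : (k : ℝ) + 1 ≠ 0 := by positivity
    field_simp
    ring
  have LM : Tendsto (fun k => (M k : ℝ) / K k ^ 2) atTop (𝓝 ρ) := by
    have h5 := ((Lp.mul L1).add (Lq.mul L2)).mul Lr
    rw [mul_one] at h5
    refine h5.congr' ?_
    filter_upwards [hk0] with k hk
    have : (k : ℝ) ≠ 0 := by positivity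
    have : (k : ℝ) + 1 ≠ 0 := by positivity
    rw [hM, hK]
    push_cast
    field_simp
  have F0 := hf ρ hρ0 hρc K M LK LM
  have F1 := hf ρ₁ h1 h1' j n₁ hjl L1
  have F2 := hf ρ₂ h2 h2' j n₂ hjl L2
  have A0 := has ρ hρ0 hρc K M LK LM
  have A1 := has ρ₁ h1 h1' j n₁ hjl L1
  have A2 := has ρ₂ h2 h2' j n₂ hjl L2
  -- the ratios
  have R1 : Tendsto (fun k => ((p k : ℝ) * n₁ k) / M k) atTop (𝓝 (θ * ρ₁ / ρ)) := by
    have h5 := ((Lp.mul L1).div ((Lp.mul L1).add (Lq.mul L2)) hρ0.ne')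
    refine h5.congr' ?_
    filter_upwards [hk0] with k hk
    have : (k : ℝ) ≠ 0 := by positivity
    rw [hM]
    push_cast
    simp only [Pi.div_apply]
    rw [div_mul_div_comm, div_mul_div_comm, ← add_div, div_div_div_cancel_right₀ (by positivity)]
  have R2 : Tendsto (fun k => (((k * k - p k : ℕ) : ℝ) * n₂ k) / M k) atTop
      (𝓝 ((1 - θ) * ρ₂ / ρ)) := by
    have h5 := ((Lq.mul L2).div ((Lp.mul L1).add (Lq.mul L2)) hρ0.ne')
    refine h5.congr' ?_
    filter_upwards [hk0] with k hk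
    have : (k : ℝ) ≠ 0 := by positivity
    rw [hM]
    push_cast
    simp only [Pi.div_apply]
    rw [div_mul_div_comm, div_mul_div_comm, ← add_div, div_div_div_cancel_right₀ (by positivity)]
  have G := (R1.mul F1).add (R2.mul F2)
  have hle : f ρ ≤ θ * ρ₁ / ρ * f ρ₁ + (1 - θ) * ρ₂ / ρ * f ρ₂ := by
    refine le_of_tendsto_of_tendsto F0 G ?_
    filter_upwards [A0, A1, A2, hk0] with k a0 a1 a2 hk
    have hmix := mix (l := (k : ℝ)) (by positivity) k (p k) (n₁ k) (n₂ k) (hpk k)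
    have hKnn : 0 ≤ K k := by rw [hK]; positivity
    have hne : zz (box 0 (K k)) (M k) ≠ ⊤ := by
      unfold zz
      exact ENNReal.div_ne_top (A_ne_top (M k) hKnn) (by exact_mod_cast (M k).factorial_ne_zero)
    have h7 := ENNReal.toReal_mono hne hmix
    rw [ENNReal.toReal_mul, ENNReal.toReal_pow, ENNReal.toReal_pow] at h7
    have h8 : zr (k : ℝ) (n₁ k) ^ (p k) * zr (k : ℝ) (n₂ k) ^ (k * k - p k) ≤ zr (K k) (M k) := h7
    have h9 := Real.log_le_log (mul_pos (pow_pos a1.2.1 _) (pow_pos a2.2.1 _)) h8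
    rw [Real.log_mul (pow_pos a1.2.1 _).ne' (pow_pos a2.2.1 _).ne', Real.log_pow, Real.log_pow] at h9
    have hMk : (0 : ℝ) < M k := by exact_mod_cast a0.1
    have hn1k : (0 : ℝ) < n₁ k := by exact_mod_cast a1.1
    have hn2k : (0 : ℝ) < n₂ k := by exact_mod_cast a2.1
    have e : (p k : ℝ) * n₁ k / M k * (-(1 / (n₁ k : ℝ)) * Real.log (zr (j k) (n₁ k))) +
        ((k * k - p k : ℕ) : ℝ) * n₂ k / M k * (-(1 / (n₂ k : ℝ)) * Real.log (zr (j k) (n₂ k))) =
        -(1 / (M k : ℝ)) * ((p k : ℝ) * Real.log (zr (k : ℝ) (n₁ k)) +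
          ((k * k - p k : ℕ) : ℝ) * Real.log (zr (k : ℝ) (n₂ k))) := by
      rw [hj]
      field_simp
      ring
    rw [e]
    have : 0 < 1 / (M k : ℝ) := by positivity
    nlinarith
  calc ρ * f ρ ≤ ρ * (θ * ρ₁ / ρ * f ρ₁ + (1 - θ) * ρ₂ / ρ * f ρ₂) :=
        mul_le_mul_of_nonneg_left hle hρ0.le
    _ = _ := by field_simp

/-- the critical volume per particle -/
noncomputable def vc : ℝ := √3 / 2

lemma vc_pos : 0 < vc := by unfold vc; positivity

lemma vc_eq : vc = 1 / rc := half_rc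

theorem conv_v (f : ℝ → ℝ) (hf : ∀ ρ, 0 < ρ → ρ < rc → IsFE ρ (f ρ)) :
    ConvexOn ℝ (Ioi vc) fun v => f (1 / v) := by
  refine ⟨convex_Ioi _, ?_⟩
  intro x hx y hy a b ha hb hab
  have hx0 : 0 < x := vc_pos.trans hx
  have hy0 : 0 < y := vc_pos.trans hy
  have hcc : ∀ z, vc < z → 1 / z < rc := by
    intro z hz
    have := vc_pos
    rw [vc_eq] at hz this
    rw [div_lt_iff₀ (this.trans hz)]
    rw [div_lt_iff₀ rc_pos] at hz
    linarith
  set w := a * x + b * y with hw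
  have hw0 : 0 < w := by
    have hwc : vc < w := (convex_Ioi vc) hx hy ha hb hab
    exact vc_pos.trans hwc
  have h := conv_rho f hf (ρ₁ := 1 / x) (ρ₂ := 1 / y) (θ := a * x / w) (by positivity) (hcc x hx)
    (by positivity) (hcc y hy) (by positivity)
    (by rw [div_le_one hw0, hw]; have : 0 ≤ b * y := by positivity
        linarith)
  have e1 : 1 - a * x / w = b * y / w := by
    rw [eq_div_iff hw0.ne', sub_mul, div_mul_cancel₀ _ hw0.ne', hw]; ring
  have e2 : a * x / w * (1 / x) + (1 - a * x / w) * (1 / y) = 1 / w := by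
    rw [e1]
    field_simp
    linarith
  rw [e2, e1] at h
  have e3 : a * x / w * (1 / x) * f (1 / x) + b * y / w * (1 / y) * f (1 / y) =
      1 / w * (a * f (1 / x) + b * f (1 / y)) := by field_simp
  rw [e3] at h
  simp only [smul_eq_mul]
  exact le_of_mul_le_mul_left h (by positivity)

end Pool.Agent.J4.H83.FV
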