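import Mathlib

/-!
# Sectors and caps of a disc of radius `1/√3`
-/

set_option autoImplicit false

open MeasureTheory Set

namespace Pool.Agent.J4.H83.FV

/-- the circumradius of the equilateral triangle with side one -/
noncomputable def R : ℝ := √3 / 3

lemma R_pos : 0 < R := by unfold R; positivity

lemma R_sq : R ^ 2 = 1 / 3 := by
  unfold R
  rw [div_pow, Real.sq_sqrt (by norm_num)]
  norm_num

lemma R_lt : R < 0.5774 := by
  have h := R_sq
  nlinarith [R_pos]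

lemma R_gt : 0.5773 < R := by
  have h := R_sq
  nlinarith [R_pos]

lemma nsq (z : ℂ) : ‖z‖ ^ 2 = z.re ^ 2 + z.im ^ 2 := by
  rw [Complex.sq_norm, Complex.normSq_apply]; ring

/-- three points with mutual distances at least one -/
lemma three {z v w : ℂ} (hv : 1 ≤ ‖v‖) (hw : 1 ≤ ‖w‖) (hvw : 1 ≤ ‖v - w‖) :
    1 ≤ ‖z‖ ^ 2 + ‖z - v‖ ^ 2 + ‖z - w‖ ^ 2 := by
  have h1 : 1 ≤ ‖v‖ ^ 2 := by nlinarith
  have h2 : 1 ≤ ‖w‖ ^ 2 := by nlinarith
  have h3 : 1 ≤ ‖v - w‖ ^ 2 := by nlinarith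
  rw [nsq] at h1 h2 h3
  rw [nsq, nsq, nsq]
  simp only [Complex.sub_re, Complex.sub_im] at *
  nlinarith [sq_nonneg (3 * z.re - v.re - w.re), sq_nonneg (3 * z.im - v.im - w.im)]

/-- the part of the disc which is nearer to `v` than to the centre -/
def cap (v : ℂ) : Set ℂ := {z | ‖z‖ < R ∧ ‖z - v‖ ≤ ‖z‖}

/-- the sector over this part -/
def sec (v : ℂ) : Set ℂ :=
  {z | 0 < ‖z‖ ∧ ‖z‖ < R ∧ ‖v‖ ^ 2 * ‖z‖ < 2 * R * (z.re * v.re + z.im * v.im)}

lemma cap_disjoint {v w : ℂ} (hv : 1 ≤ ‖v‖) (hw : 1 ≤ ‖w‖) (hvw : 1 ≤ ‖v - w‖) :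
    Disjoint (cap v) (cap w) := by
  rw [Set.disjoint_left]
  rintro z ⟨h1, h2⟩ ⟨-, h3⟩
  have h := three (z := z) hv hw hvw
  have h4 : ‖z‖ ^ 2 < 1 / 3 := by rw [← R_sq]; exact pow_lt_pow_left₀ h1 (norm_nonneg _) two_ne_zero
  have h5 : ‖z - v‖ ^ 2 ≤ ‖z‖ ^ 2 := pow_le_pow_left₀ (norm_nonneg _) h2 2
  have h6 : ‖z - w‖ ^ 2 ≤ ‖z‖ ^ 2 := pow_le_pow_left₀ (norm_nonneg _) h3 2
  linarith

lemma sec_disjoint {v w : ℂ} (hv : 1 ≤ ‖v‖) (hw : 1 ≤ ‖w‖) (hvw : 1 ≤ ‖v - w‖) :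
    Disjoint (sec v) (sec w) := by
  rw [Set.disjoint_left]
  rintro z ⟨h0, h1, h2⟩ ⟨-, -, h3⟩
  set u : ℂ := ((R / ‖z‖ : ℝ) : ℂ) * z with hu
  have hR := R_pos
  have hure : u.re = R / ‖z‖ * z.re := by rw [hu, Complex.re_ofReal_mul]
  have huim : u.im = R / ‖z‖ * z.im := by rw [hu, Complex.im_ofReal_mul]
  have hun : ‖u‖ ^ 2 = 1 / 3 := by
    rw [nsq, hure, huim, ← R_sq]
    have := nsq z
    field_simp
    linarith
  have key : ∀ y : ℂ, ‖y‖ ^ 2 * ‖z‖ < 2 * R * (z.re * y.re + z.im * y.im) → ‖u - y‖ ^ 2 < 1 / 3 := by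
    intro y hy
    have e : ‖u - y‖ ^ 2 = ‖u‖ ^ 2 + ‖y‖ ^ 2 - 2 * (R / ‖z‖) * (z.re * y.re + z.im * y.im) := by
      rw [nsq, nsq u, nsq y, Complex.sub_re, Complex.sub_im, hure, huim]
      ring
    rw [e, hun]
    have : ‖y‖ ^ 2 < 2 * (R / ‖z‖) * (z.re * y.re + z.im * y.im) := by
      rw [show 2 * (R / ‖z‖) * (z.re * y.re + z.im * y.im) =
        (2 * R * (z.re * y.re + z.im * y.im)) / ‖z‖ by ring]
      rw [lt_div_iff₀ h0]
      exact hy
    linarith
  have h := three (z := u) hv hw hvw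
  have h4 := key v h2
  have h5 := key w h3
  linarith

lemma cap_meas (v : ℂ) : MeasurableSet (cap v) := by
  have h : cap v = {z | ‖z‖ < R} ∩ {z | ‖z - v‖ ≤ ‖z‖} := rfl
  rw [h]
  exact (measurableSet_lt measurable_norm measurable_const).inter
    (measurableSet_le ((measurable_id.sub_const v).norm) measurable_norm)

lemma sec_meas (v : ℂ) : MeasurableSet (sec v) := by
  have h : sec v = {z | 0 < ‖z‖} ∩ ({z | ‖z‖ < R} ∩
    {z | ‖v‖ ^ 2 * ‖z‖ < 2 * R * (z.re * v.re + z.im * v.im)}) := rfl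
  have h1 : Measurable fun z : ℂ => z.re := Complex.measurable_re
  have h2 : Measurable fun z : ℂ => z.im := Complex.measurable_im
  rw [h]
  exact (measurableSet_lt measurable_const measurable_norm).inter
    ((measurableSet_lt measurable_norm measurable_const).inter
    (measurableSet_lt (measurable_norm.const_mul _)
      (((h1.mul_const _).add (h2.mul_const _)).const_mul _)))

lemma cap_sub (v : ℂ) : cap v ⊆ Metric.ball 0 R := fun z hz => by
  rw [mem_ball_zero_iff]; exact hz.1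

lemma sec_sub (v : ℂ) : sec v ⊆ Metric.ball 0 R := fun z hz => by
  rw [mem_ball_zero_iff]; exact hz.2.1

/-- rotation to the positive real axis -/
lemma vol_rot (v : ℂ) (hv : 0 < ‖v‖) :
    volume (cap v) = volume (cap (‖v‖ : ℂ)) ∧ volume (sec v) = volume (sec (‖v‖ : ℂ)) := by
  have hc : ‖v / (‖v‖ : ℂ)‖ = 1 := by
    rw [norm_div, Complex.norm_real, norm_norm, div_self hv.ne']
  let c : Circle := ⟨v / (‖v‖ : ℂ), mem_sphere_zero_iff_norm.2 hc⟩
  have hmp := (rotation c).measurePreserving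
  have hcv : (c : ℂ) = v / (‖v‖ : ℂ) := rfl
  have hrot : ∀ z, rotation c z = (v / (‖v‖ : ℂ)) * z := fun z => by rw [rotation_apply, hcv]
  have hcv2 : (v / (‖v‖ : ℂ)) * (‖v‖ : ℂ) = v := by
    rw [div_mul_cancel₀]
    exact_mod_cast hv.ne'
  constructor
  · rw [← hmp.measure_preimage (cap_meas v).nullMeasurableSet]
    congr 1
    ext z
    simp only [cap, mem_preimage, mem_setOf_eq]
    have e1 : ‖rotation c z‖ = ‖z‖ := (rotation c).norm_map z
    have e2 : ‖rotation c z - v‖ = ‖z - (‖v‖ : ℂ)‖ := by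
      conv_lhs => rw [← hcv2, hrot, ← mul_sub]
      rw [norm_mul, hc, one_mul]
    rw [e1, e2]
  · rw [← hmp.measure_preimage (sec_meas v).nullMeasurableSet]
    congr 1
    ext z
    simp only [sec, mem_preimage, mem_setOf_eq]
    have e1 : ‖rotation c z‖ = ‖z‖ := (rotation c).norm_map z
    have e2 : (rotation c z).re * v.re + (rotation c z).im * v.im = z.re * ‖v‖ := by
      have h2 := nsq v
      rw [hrot, Complex.mul_re, Complex.mul_im]
      have e3 : (v / (‖v‖ : ℂ)).re = v.re / ‖v‖ := by rw [Complex.div_ofReal_re]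
      have e4 : (v / (‖v‖ : ℂ)).im = v.im / ‖v‖ := by rw [Complex.div_ofReal_im]
      rw [e3, e4]
      field_simp
      linear_combination (-z.re) * h2
    rw [e1, e2]
    simp only [Complex.norm_real, norm_norm, Complex.ofReal_re, Complex.ofReal_im, mul_zero, add_zero]

end Pool.Agent.J4.H83.FV
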