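import Pool.Agent.J4.H83.FV.Nbr

/-!
# The sum of the excesses of all truncated Voronoi cells
-/

set_option autoImplicit false

open MeasureTheory Set

namespace Pool.Agent.J4.H83.FV

/-- the box -/
def box (a b : ℝ) : Set ℂ := {z | z.re ∈ Icc a b ∧ z.im ∈ Icc a b}

lemma box_eq (a b : ℝ) : box a b = Complex.measurableEquivRealProd ⁻¹' (Icc a b ×ˢ Icc a b) := by
  ext z
  simp [box, Complex.measurableEquivRealProd_apply]
  tauto

lemma box_meas (a b : ℝ) : MeasurableSet (box a b) := by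
  rw [box_eq]
  exact Complex.measurableEquivRealProd.measurable (measurableSet_Icc.prod measurableSet_Icc)

lemma vol_box {a b : ℝ} (hab : a ≤ b) : volume (box a b) = ENNReal.ofReal ((b - a) ^ 2) := by
  rw [box_eq, Complex.volume_preserving_equiv_real_prod.measure_preimage_equiv,
    Measure.volume_eq_prod, Measure.prod_prod, Real.volume_Icc, ← ENNReal.ofReal_mul (by linarith)]
  congr 1
  ring

variable {N : ℕ}

/-- the excess of the area of the truncated Voronoi cell of the point `i` -/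
noncomputable def ex (x : Fin N → ℂ) (i : Fin N) : ℝ :=
  (volume (T (Finset.univ.erase i) fun j => x j - x i)).toReal - √3 / 2

theorem sum_ex (x : Fin N → ℂ) {L : ℝ} (hL : 0 ≤ L) (hbox : ∀ i, x i ∈ box 0 L)
    (_hx : ∀ i j, i ≠ j → 1 ≤ ‖x i - x j‖) :
    ∑ i, ex x i ≤ (L + 2 * R) ^ 2 - √3 / 2 * N := by
  have hR := R_pos
  set V : Fin N → Set ℂ := fun i =>
    (fun p => p - x i) ⁻¹' (T (Finset.univ.erase i) fun j => x j - x i) with hV
  have hvol : ∀ i, volume (V i) = volume (T (Finset.univ.erase i) fun j => x j - x i) := by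
    intro i
    exact (measurePreserving_sub_right volume (x i)).measure_preimage (T_meas _ _).nullMeasurableSet
  have hmem : ∀ i p, p ∈ V i ↔ ‖p - x i‖ < R ∧ ∀ j, j ≠ i → ‖p - x i‖ < ‖p - x j‖ := by
    intro i p
    simp only [hV, mem_preimage, T, mem_setOf_eq, Finset.mem_erase, Finset.mem_univ, and_true,
      sub_sub_sub_cancel_right]
  have hmeas : ∀ i, MeasurableSet (V i) := fun i => (measurable_sub_const _) (T_meas _ _)
  have hdis : Pairwise (Function.onFun Disjoint V) := by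
    intro i j hij
    rw [Function.onFun, Set.disjoint_left]
    intro p hp hq
    rw [hmem] at hp hq
    have h1 := hp.2 j hij.symm
    have h2 := hq.2 i hij
    linarith
  have hsub : (⋃ i, V i) ⊆ box (-R) (L + R) := by
    intro p hp
    rw [mem_iUnion] at hp
    obtain ⟨i, hi⟩ := hp
    have h1 := ((hmem i p).1 hi).1
    obtain ⟨⟨a1, a2⟩, a3, a4⟩ := hbox i
    have h2 := abs_le.1 ((Complex.abs_re_le_norm (p - x i)).trans h1.le)
    have h3 := abs_le.1 ((Complex.abs_im_le_norm (p - x i)).trans h1.le)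
    rw [Complex.sub_re] at h2
    rw [Complex.sub_im] at h3
    exact ⟨⟨by linarith, by linarith⟩, by linarith, by linarith⟩
  have hle : ∑ i, volume (V i) ≤ ENNReal.ofReal ((L + 2 * R) ^ 2) := by
    calc ∑ i, volume (V i) = volume (⋃ i, V i) := by
          rw [measure_iUnion hdis hmeas, tsum_fintype]
      _ ≤ volume (box (-R) (L + R)) := measure_mono hsub
      _ = _ := by rw [vol_box (by linarith)]; congr 1; ring
  have hfin : ∀ i, volume (V i) ≠ ⊤ := fun i =>
    ((Finset.single_le_sum (fun j _ => zero_le) (Finset.mem_univ i)).trans_lt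
      (hle.trans_lt ENNReal.ofReal_lt_top)).ne
  have h1 := ENNReal.toReal_mono ENNReal.ofReal_ne_top hle
  rw [ENNReal.toReal_ofReal (by positivity), ENNReal.toReal_sum fun i _ => hfin i] at h1
  unfold ex
  rw [Finset.sum_sub_distrib]
  simp only [Finset.sum_const, Finset.card_univ, Fintype.card_fin, nsmul_eq_mul]
  have h2 : ∑ i, (volume (T (Finset.univ.erase i) fun j => x j - x i)).toReal =
      ∑ i, (volume (V i)).toReal := Finset.sum_congr rfl fun i _ => by rw [hvol]
  rw [h2]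
  linarith

/-- the structure of an admissible configuration -/
theorem structure_thm : ∃ ε₀ : ℝ, 0 < ε₀ ∧ ∃ C : ℝ, 0 < C ∧ ∀ (N : ℕ) (x : Fin N → ℂ),
    (∀ i j, i ≠ j → 1 ≤ ‖x i - x j‖) → ∀ i, 0 ≤ ex x i ∧ (ex x i < ε₀ →
      ∃ j k, j ≠ i ∧ k ≠ i ∧ ‖x j - x i‖ - 1 ≤ C * ex x i ∧ ‖x k - x i‖ - 1 ≤ C * ex x i ∧
        (x j - x i).re ≤ -0.15 ∧ (x j - x i).im ≤ -0.15 ∧ 0.15 ≤ (x k - x i).re ∧
        (x k - x i).im ≤ -0.15) := by
  obtain ⟨ε₀, hε, C, hC, h⟩ := local_structure
  refine ⟨ε₀, hε, C, hC, fun N x hx i => ?_⟩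
  obtain ⟨h1, h2⟩ := h (Finset.univ.erase i) (fun j => x j - x i)
    (fun j hj => hx j i (Finset.ne_of_mem_erase hj))
    (fun j _ k _ hjk => by rw [sub_sub_sub_cancel_right]; exact hx j k hjk)
  refine ⟨h1, fun h3 => ?_⟩
  obtain ⟨j, hj, k, hk, h4⟩ := h2 h3
  exact ⟨j, k, Finset.ne_of_mem_erase hj, Finset.ne_of_mem_erase hk, h4⟩

end Pool.Agent.J4.H83.FV
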