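import Pool.Agent.J4.H83.FV.Glob

/-!
# Iterated integration of kernels along an acyclic structure
-/

set_option autoImplicit false

open MeasureTheory Set

namespace Pool.Agent.J4.H83.FV

/-- Products of kernels, each of which depends on its own variable and on variables of smaller
rank, are integrated one after the other. -/
theorem prod_kernels {ι : Type*} [Fintype ι] [DecidableEq ι] {E : Type*} [MeasurableSpace E]
    (μ : Measure E) [SigmaFinite μ] (r : ι → ℝ) (f : ι → (ι → E) → ENNReal)
    (hf : ∀ i, Measurable (f i))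
    (hdep : ∀ i x y, (∀ j, (j = i ∨ r j < r i) → x j = y j) → f i x = f i y)
    (K : ι → ENNReal) (hK : ∀ i x, ∫⁻ t, f i (Function.update x i t) ∂μ ≤ K i) :
    ∫⁻ x, ∏ i, f i x ∂(Measure.pi fun _ => μ) ≤ ∏ i, K i := by
  have claim : ∀ n : ℕ, ∀ s : Finset ι, s.card = n → ∀ x,
      (∫⋯∫⁻_s, (fun x => ∏ i ∈ s, f i x) ∂(fun _ => μ)) x ≤ ∏ i ∈ s, K i := by
    intro n
    induction n with
    | zero =>
      intro s hs x
      rw [Finset.card_eq_zero] at hs
      subst hs
      simp
    | succ n ih =>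
      intro s hs x
      have hne : s.Nonempty := by rw [← Finset.card_pos]; omega
      obtain ⟨i, his, hmin⟩ := Finset.exists_min_image s r hne
      have hs' : (s.erase i).card = n := by rw [Finset.card_erase_of_mem his]; omega
      have hni : i ∉ s.erase i := Finset.notMem_erase i s
      have hmeas : Measurable fun x => ∏ j ∈ s, f j x := Finset.measurable_fun_prod _ fun j _ => hf j
      rw [← Finset.insert_erase his] at hmeas ⊢
      rw [lmarginal_insert _ hmeas hni, Finset.prod_insert hni]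
      have hin : ∀ y : ι → E, (∫⋯∫⁻_s.erase i, (fun x => ∏ j ∈ insert i (s.erase i), f j x)
          ∂(fun _ => μ)) y ≤ f i y * ∏ j ∈ s.erase i, K j := by
        intro y
        have h1 : (∫⋯∫⁻_s.erase i, (fun x => ∏ j ∈ insert i (s.erase i), f j x) ∂(fun _ => μ)) y =
            f i y * (∫⋯∫⁻_s.erase i, (fun x => ∏ j ∈ s.erase i, f j x) ∂(fun _ => μ)) y := by
          unfold lmarginal
          rw [← lintegral_const_mul]
          · refine lintegral_congr fun w => ?_
            beta_reduce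
            rw [Finset.prod_insert hni]
            congr 1
            refine hdep i _ _ fun j hj => ?_
            have hjs : j ∉ s.erase i := by
              rcases hj with rfl | hj
              · exact hni
              · intro hmem
                have := hmin j (Finset.mem_of_mem_erase hmem)
                linarith
            simp only [Function.updateFinset, hjs, dif_neg, not_false_iff]
          · exact (Finset.measurable_fun_prod _ fun j _ => hf j).comp measurable_updateFinset
        rw [h1]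
        exact mul_le_mul_right (ih _ hs' y) _
      calc ∫⁻ t, (∫⋯∫⁻_s.erase i, (fun x => ∏ j ∈ insert i (s.erase i), f j x) ∂(fun _ => μ))
            (Function.update x i t) ∂μ
          ≤ ∫⁻ t, f i (Function.update x i t) * ∏ j ∈ s.erase i, K j ∂μ :=
            lintegral_mono fun t => hin _
        _ = (∫⁻ t, f i (Function.update x i t) ∂μ) * ∏ j ∈ s.erase i, K j := by
            rw [lintegral_mul_const]
            exact (hf i).comp (measurable_update x)
        _ ≤ K i * ∏ j ∈ s.erase i, K j := mul_le_mul_left (hK i x) _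
  rcases isEmpty_or_nonempty (ι → E) with hE | ⟨⟨x⟩⟩
  · rw [lintegral_of_isEmpty]
    exact zero_le
  · rw [lintegral_eq_lmarginal_univ x]
    exact claim _ Finset.univ rfl x

/-- the relation between a point and its two neighbours below -/
def Good (p q x : ℂ) : Prop :=
  (1 ≤ ‖p - x‖ ∧ ‖p - x‖ ≤ 2) ∧ (1 ≤ ‖q - x‖ ∧ ‖q - x‖ ≤ 2) ∧
    ((p - x).re ≤ -0.15 ∧ (p - x).im ≤ -0.15) ∧ (0.15 ≤ (q - x).re ∧ (q - x).im ≤ -0.15)

/-- the sum of the two gaps -/
noncomputable def gap (p q x : ℂ) : ℝ := (‖p - x‖ - 1) + (‖q - x‖ - 1)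

open Classical in
/-- the kernel -/
noncomputable def kern (δ : ℝ) (p q x : ℂ) : ENNReal :=
  if Good p q x then ENNReal.ofReal (Real.exp (-gap p q x / δ)) else 0

lemma lip {p q x y : ℂ} (hx : Good p q x) (hy : Good p q y) :
    |(x - y).re| + |(x - y).im| ≤ 14 * (gap p q x + gap p q y) := by
  obtain ⟨⟨a1, a2⟩, ⟨a3, a4⟩, ⟨a5, a6⟩, a7, a8⟩ := hx
  obtain ⟨⟨b1, b2⟩, ⟨b3, b4⟩, ⟨b5, b6⟩, b7, b8⟩ := hy
  have e1 : (‖p - x‖ - ‖p - y‖) * (‖p - x‖ + ‖p - y‖) =
      -((x - y).re * ((p - x).re + (p - y).re) + (x - y).im * ((p - x).im + (p - y).im)) := by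
    have h1 := nsq (p - x)
    have h2 := nsq (p - y)
    simp only [Complex.sub_re, Complex.sub_im] at *
    linear_combination h1 - h2
  have e2 : (‖q - x‖ - ‖q - y‖) * (‖q - x‖ + ‖q - y‖) =
      -((x - y).re * ((q - x).re + (q - y).re) + (x - y).im * ((q - x).im + (q - y).im)) := by
    have h1 := nsq (q - x)
    have h2 := nsq (q - y)
    simp only [Complex.sub_re, Complex.sub_im] at *
    linear_combination h1 - h2
  set D1 := (x - y).re
  set D2 := (x - y).im
  unfold gap
  set α := ‖p - x‖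
  set α' := ‖p - y‖
  set β := ‖q - x‖
  set β' := ‖q - y‖
  have hα : |α - α'| ≤ (α - 1) + (α' - 1) := by
    rw [abs_le]; constructor <;> linarith
  have hβ : |β - β'| ≤ (β - 1) + (β' - 1) := by
    rw [abs_le]; constructor <;> linarith
  have hA : |α - α'| * (α + α') ≤ 4 * ((α - 1) + (α' - 1)) := by
    calc |α - α'| * (α + α') ≤ |α - α'| * 4 :=
          mul_le_mul_of_nonneg_left (by linarith) (abs_nonneg _)
      _ ≤ _ := by linarith
  have hB : |β - β'| * (β + β') ≤ 4 * ((β - 1) + (β' - 1)) := by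
    calc |β - β'| * (β + β') ≤ |β - β'| * 4 :=
          mul_le_mul_of_nonneg_left (by linarith) (abs_nonneg _)
      _ ≤ _ := by linarith
  have hA' : |D1 * ((p - x).re + (p - y).re) + D2 * ((p - x).im + (p - y).im)| ≤
      4 * ((α - 1) + (α' - 1)) := by
    rw [← abs_neg, ← e1, abs_mul, abs_of_nonneg (show 0 ≤ α + α' by linarith)]
    exact hA
  have hB' : |D1 * ((q - x).re + (q - y).re) + D2 * ((q - x).im + (q - y).im)| ≤
      4 * ((β - 1) + (β' - 1)) := by
    rw [← abs_neg, ← e2, abs_mul, abs_of_nonneg (show 0 ≤ β + β' by linarith)]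
    exact hB
  have hcase : 0.3 * (|D1| + |D2|) ≤ 4 * ((α - 1) + (α' - 1)) + 4 * ((β - 1) + (β' - 1)) := by
    have hA1 := (abs_le.1 hA').1
    have hA2 := (abs_le.1 hA').2
    have hB1 := (abs_le.1 hB').1
    have hB2 := (abs_le.1 hB').2
    rcases le_total 0 D1 with h1 | h1 <;> rcases le_total 0 D2 with h2 | h2
    · rw [abs_of_nonneg h1, abs_of_nonneg h2]
      nlinarith
    · rw [abs_of_nonneg h1, abs_of_nonpos h2]
      nlinarith
    · rw [abs_of_nonpos h1, abs_of_nonneg h2]
      nlinarith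
    · rw [abs_of_nonpos h1, abs_of_nonpos h2]
      nlinarith
  linarith

lemma lint_exp_abs {c : ℝ} (hc : 0 < c) :
    ∫⁻ t : ℝ, ENNReal.ofReal (Real.exp (-(c * |t|))) ≤ ENNReal.ofReal (2 / c) := by
  have h1 : ∫⁻ t in Iic (0 : ℝ), ENNReal.ofReal (Real.exp (-(c * |t|))) = ENNReal.ofReal (1 / c) := by
    have e : ∫⁻ t in Iic (0 : ℝ), ENNReal.ofReal (Real.exp (-(c * |t|))) =
        ∫⁻ t in Iic (0 : ℝ), ENNReal.ofReal (Real.exp (c * t)) := by
      refine setLIntegral_congr_fun measurableSet_Iic fun t ht => ?_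
      rw [abs_of_nonpos ht]
      congr 2; ring
    rw [e, ← ofReal_integral_eq_lintegral_ofReal (integrableOn_exp_mul_Iic hc 0)
      (Filter.Eventually.of_forall fun t => (Real.exp_pos _).le), integral_exp_mul_Iic hc]
    simp
  have h2 : ∫⁻ t in Ioi (0 : ℝ), ENNReal.ofReal (Real.exp (-(c * |t|))) = ENNReal.ofReal (1 / c) := by
    have e : ∫⁻ t in Ioi (0 : ℝ), ENNReal.ofReal (Real.exp (-(c * |t|))) =
        ∫⁻ t in Ioi (0 : ℝ), ENNReal.ofReal (Real.exp (-c * t)) := by
      refine setLIntegral_congr_fun measurableSet_Ioi fun t ht => ?_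
      rw [abs_of_pos ht]
      congr 2; ring
    rw [e, ← ofReal_integral_eq_lintegral_ofReal (integrableOn_exp_mul_Ioi (by linarith) 0)
      (Filter.Eventually.of_forall fun t => (Real.exp_pos _).le), integral_exp_mul_Ioi (by linarith)]
    simp
  rw [← lintegral_add_compl _ (measurableSet_Iic (a := (0 : ℝ))), compl_Iic, h1, h2,
    ← ENNReal.ofReal_add (by positivity) (by positivity)]
  refine le_of_eq ?_
  congr 1
  ring

lemma lint_exp_box {c : ℝ} (hc : 0 < c) (x₀ : ℂ) :
    ∫⁻ x : ℂ, ENNReal.ofReal (Real.exp (-(c * |(x - x₀).re|)) * Real.exp (-(c * |(x - x₀).im|))) ≤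
      ENNReal.ofReal ((2 / c) ^ 2) := by
  have h0 := lintegral_sub_right_eq_self (μ := (volume : Measure ℂ)) (fun x : ℂ =>
    ENNReal.ofReal (Real.exp (-(c * |x.re|)) * Real.exp (-(c * |x.im|)))) x₀
  rw [h0]
  have h1 : ∫⁻ x : ℂ, ENNReal.ofReal (Real.exp (-(c * |x.re|)) * Real.exp (-(c * |x.im|))) =
      ∫⁻ y : ℝ × ℝ, ENNReal.ofReal (Real.exp (-(c * |y.1|))) * ENNReal.ofReal (Real.exp (-(c * |y.2|))) := by
    rw [← Complex.volume_preserving_equiv_real_prod.lintegral_comp_emb
      Complex.measurableEquivRealProd.measurableEmbedding]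
    refine lintegral_congr fun x => ?_
    rw [Complex.measurableEquivRealProd_apply, ENNReal.ofReal_mul (Real.exp_pos _).le]
  rw [h1, Measure.volume_eq_prod, lintegral_prod_mul (f := fun t : ℝ => ENNReal.ofReal (Real.exp (-(c * |t|))))
    (g := fun t : ℝ => ENNReal.ofReal (Real.exp (-(c * |t|)))) (by fun_prop) (by fun_prop), pow_two,
    ENNReal.ofReal_mul (by positivity)]
  exact mul_le_mul' (lint_exp_abs hc) (lint_exp_abs hc)

/-- the integral of the kernel -/
theorem kern_int {δ : ℝ} (hδ : 0 < δ) (p q : ℂ) :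
    ∫⁻ x, kern δ p q x ≤ ENNReal.ofReal (10000 * δ ^ 2) := by
  by_cases hne : ∃ x, Good p q x
  · obtain ⟨x₁, hx₁⟩ := hne
    have hbdd : BddBelow ((fun x => gap p q x) '' {x | Good p q x}) := by
      refine ⟨0, ?_⟩
      rintro _ ⟨x, hx, rfl⟩
      have h1 := hx.1.1
      have h2 := hx.2.1.1
      show 0 ≤ gap p q x
      unfold gap
      linarith
    obtain ⟨_, ⟨x₀, hx₀, rfl⟩, hlt⟩ := Real.lt_sInf_add_pos
      (s := (fun x => gap p q x) '' {x | Good p q x}) ⟨_, x₁, hx₁, rfl⟩ hδ
    have hmin : ∀ x, Good p q x → gap p q x₀ ≤ gap p q x + δ := by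
      intro x hx
      have := csInf_le hbdd ⟨x, hx, rfl⟩
      simp only at hlt this
      linarith
    have hbound : ∀ x, kern δ p q x ≤ ENNReal.ofReal (Real.exp (1 / 2)) *
        ENNReal.ofReal (Real.exp (-(1 / (28 * δ) * |(x - x₀).re|)) *
          Real.exp (-(1 / (28 * δ) * |(x - x₀).im|))) := by
      intro x
      unfold kern
      split_ifs with hx
      · rw [← ENNReal.ofReal_mul (Real.exp_pos _).le, ← Real.exp_add, ← Real.exp_add]
        refine ENNReal.ofReal_le_ofReal (Real.exp_le_exp.2 ?_)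
        have h1 := lip hx hx₀
        have h2 := hmin x hx
        have h3 : (|(x - x₀).re| + |(x - x₀).im|) / (28 * δ) ≤ (gap p q x + δ / 2) / δ := by
          rw [div_le_div_iff₀ (by positivity) hδ]
          nlinarith
        have h4 : (gap p q x + δ / 2) / δ = gap p q x / δ + 1 / 2 := by field_simp
        have h5 : (|(x - x₀).re| + |(x - x₀).im|) / (28 * δ) =
            1 / (28 * δ) * |(x - x₀).re| + 1 / (28 * δ) * |(x - x₀).im| := by ring
        rw [h4, h5] at h3
        rw [neg_div]
        linarith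
      · exact zero_le
    calc ∫⁻ x, kern δ p q x ≤ ∫⁻ x, ENNReal.ofReal (Real.exp (1 / 2)) *
          ENNReal.ofReal (Real.exp (-(1 / (28 * δ) * |(x - x₀).re|)) *
            Real.exp (-(1 / (28 * δ) * |(x - x₀).im|))) := lintegral_mono hbound
      _ = ENNReal.ofReal (Real.exp (1 / 2)) * ∫⁻ x,
          ENNReal.ofReal (Real.exp (-(1 / (28 * δ) * |(x - x₀).re|)) *
            Real.exp (-(1 / (28 * δ) * |(x - x₀).im|))) := by
          rw [lintegral_const_mul' _ _ ENNReal.ofReal_ne_top]
      _ ≤ ENNReal.ofReal (Real.exp (1 / 2)) * ENNReal.ofReal ((2 / (1 / (28 * δ))) ^ 2) :=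
          mul_le_mul_right (lint_exp_box (by positivity) x₀) _
      _ ≤ _ := by
          rw [← ENNReal.ofReal_mul (Real.exp_pos _).le]
          refine ENNReal.ofReal_le_ofReal ?_
          have h1 : (2 / (1 / (28 * δ))) ^ 2 = 3136 * δ ^ 2 := by field_simp; ring
          have h2 : Real.exp (1 / 2) ≤ 3 := by
            have := Real.exp_one_lt_d9
            have h3 : Real.exp (1 / 2) ≤ Real.exp 1 := Real.exp_le_exp.2 (by norm_num)
            linarith
          rw [h1]
          nlinarith [sq_nonneg δ]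
  · push Not at hne
    have : ∀ x, kern δ p q x = 0 := fun x => by unfold kern; rw [if_neg (hne x)]
    simp_rw [this]
    simp

end Pool.Agent.J4.H83.FV
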