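import Pool.Agent.J4.H83.FV.Vol

/-!
# The truncated Voronoi cell: excess of the area and the near neighbours
-/

set_option autoImplicit false

open MeasureTheory Set

namespace Pool.Agent.J4.H83.FV

noncomputable def aC (v : ℂ) : ℝ := (volume (cap v)).toReal
noncomputable def sC (v : ℂ) : ℝ := (volume (sec v)).toReal

/-- the ratio of the areas of the largest cap and its sector -/
noncomputable def gam : ℝ := 1 - 3 * √3 / (2 * Real.pi)

lemma sqrt3_lt : √3 < 1.7321 := by
  rw [show (1.7321 : ℝ) = √(1.7321 ^ 2) by rw [Real.sqrt_sq (by norm_num)]]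
  exact Real.sqrt_lt_sqrt (by norm_num) (by norm_num)

lemma sqrt3_sq : √3 ^ 2 = 3 := Real.sq_sqrt (by norm_num)

lemma gam_pos : 0 < gam := by
  unfold gam
  have h1 := Real.pi_gt_three
  have h2 := sqrt3_lt
  have : 3 * √3 / (2 * Real.pi) < 1 := by
    rw [div_lt_one (by positivity)]; linarith
  linarith

lemma gam_eq : gam * (Real.pi / 3) = Real.pi / 3 - √3 / 2 := by
  unfold gam
  have := Real.pi_pos
  have e : 3 * √3 / (2 * Real.pi) * (Real.pi / 3) = √3 / 2 := by field_simp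
  rw [sub_mul, one_mul, e]

lemma cap_big {v : ℂ} (hv : 2 * R ≤ ‖v‖) : cap v = ∅ := by
  ext z
  simp only [cap, mem_setOf_eq, mem_empty_iff_false, iff_false]
  rintro ⟨h1, h2⟩
  have : ‖v‖ ≤ ‖z - v‖ + ‖z‖ := by
    calc ‖v‖ = ‖z - (z - v)‖ := by congr 1; ring
      _ ≤ ‖z‖ + ‖z - v‖ := norm_sub_le _ _
      _ = _ := by ring
  linarith

lemma sec_big {v : ℂ} (hv : 2 * R ≤ ‖v‖) : sec v = ∅ := by
  ext z
  simp only [sec, mem_setOf_eq, mem_empty_iff_false, iff_false]
  rintro ⟨h0, h1, h2⟩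
  have hR := R_pos
  have h3 : z.re * v.re + z.im * v.im ≤ ‖z‖ * ‖v‖ := by
    refine le_trans (le_abs_self _) (abs_le_of_sq_le_sq ?_ (by positivity))
    rw [mul_pow, nsq, nsq]
    nlinarith [sq_nonneg (z.re * v.im - z.im * v.re)]
  have h4 : 2 * R * (z.re * v.re + z.im * v.im) ≤ ‖v‖ * (‖z‖ * ‖v‖) := by
    calc 2 * R * (z.re * v.re + z.im * v.im) ≤ 2 * R * (‖z‖ * ‖v‖) :=
          mul_le_mul_of_nonneg_left h3 (by positivity)
      _ ≤ _ := mul_le_mul_of_nonneg_right hv (by positivity)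
  nlinarith

lemma c0_pos : 0 < 3 * (2 - √3) / (2 * Real.pi) := by
  have h2 := sqrt3_lt
  have := Real.pi_pos
  have : 0 < 2 - √3 := by linarith
  positivity

lemma h_low {φ : ℝ} (h0 : 0 ≤ φ) (h1 : φ ≤ Real.pi / 12) :
    3 * (2 - √3) / (2 * Real.pi) * φ ≤ Real.sin φ * Real.cos φ - 3 * √3 / (2 * Real.pi) * φ := by
  have hpi := Real.pi_pos
  have hm0 : (0 : ℝ) ∈ Icc 0 Real.pi := ⟨le_rfl, hpi.le⟩
  have hm6 : Real.pi / 6 ∈ Icc 0 Real.pi := ⟨by positivity, by linarith⟩
  have ha0 : 0 ≤ 1 - 12 * φ / Real.pi := by rw [sub_nonneg, div_le_one hpi]; linarith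
  have hb0 : 0 ≤ 12 * φ / Real.pi := by positivity
  have hab : 1 - 12 * φ / Real.pi + 12 * φ / Real.pi = 1 := by ring
  have hcc := (strictConcaveOn_sin_Icc.concaveOn).2 hm0 hm6 ha0 hb0 hab
  simp only [smul_eq_mul, Real.sin_zero, mul_zero, zero_add, Real.sin_pi_div_six] at hcc
  have e1 : 12 * φ / Real.pi * (Real.pi / 6) = 2 * φ := by field_simp; ring
  rw [e1, Real.sin_two_mul] at hcc
  have e2 : 3 * (2 - √3) / (2 * Real.pi) * φ + 3 * √3 / (2 * Real.pi) * φ =
      12 * φ / Real.pi * (1 / 2) / 2 := by field_simp; ring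
  linarith

lemma h_high {φ : ℝ} (h0 : Real.pi / 12 ≤ φ) (h1 : φ ≤ Real.pi / 6) :
    3 * (2 - √3) / (2 * Real.pi) * (Real.pi / 6 - φ) ≤
      Real.sin φ * Real.cos φ - 3 * √3 / (2 * Real.pi) * φ := by
  have hpi := Real.pi_pos
  have hm6 : Real.pi / 6 ∈ Icc 0 Real.pi := ⟨by positivity, by linarith⟩
  have hm3 : Real.pi / 3 ∈ Icc 0 Real.pi := ⟨by positivity, by linarith⟩
  have ha0 : 0 ≤ 2 - 12 * φ / Real.pi := by rw [sub_nonneg, div_le_iff₀ hpi]; linarith
  have hb0 : 0 ≤ 12 * φ / Real.pi - 1 := by rw [sub_nonneg, le_div_iff₀ hpi]; linarith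
  have hab : 2 - 12 * φ / Real.pi + (12 * φ / Real.pi - 1) = 1 := by ring
  have hcc := (strictConcaveOn_sin_Icc.concaveOn).2 hm6 hm3 ha0 hb0 hab
  simp only [smul_eq_mul, Real.sin_pi_div_six, Real.sin_pi_div_three] at hcc
  have e1 : (2 - 12 * φ / Real.pi) * (Real.pi / 6) + (12 * φ / Real.pi - 1) * (Real.pi / 3) =
      2 * φ := by field_simp; ring
  rw [e1, Real.sin_two_mul] at hcc
  have e2 : 3 * (2 - √3) / (2 * Real.pi) * (Real.pi / 6 - φ) + 3 * √3 / (2 * Real.pi) * φ =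
      ((2 - 12 * φ / Real.pi) * (1 / 2) + (12 * φ / Real.pi - 1) * (√3 / 2)) / 2 := by
    field_simp; ring
  linarith

lemma local_ineq : ∃ C : ℝ, 0 < C ∧ ∀ v : ℂ, 1 ≤ ‖v‖ → 0 ≤ gam * sC v - aC v ∧
    (‖v‖ - 1 ≤ C * (gam * sC v - aC v) ∨ sC v ≤ C * (gam * sC v - aC v)) := by
  set c0 : ℝ := 3 * (2 - √3) / (2 * Real.pi) with hc0
  have hc0p : 0 < c0 := c0_pos
  have hR := R_pos
  have hpi := Real.pi_pos
  refine ⟨6 * R / c0 + 1 / c0, by positivity, fun v hv => ?_⟩
  rcases le_or_gt (2 * R) ‖v‖ with hbig | hsmall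
  · have e1 : sC v = 0 := by unfold sC; rw [sec_big hbig]; simp
    have e2 : aC v = 0 := by unfold aC; rw [cap_big hbig]; simp
    rw [e1, e2]
    simp
  · have hv0 : 0 < ‖v‖ := by linarith
    have h2R : 0 < 2 * R := by positivity
    set φ := Real.arccos (‖v‖ / (2 * R)) with hφ
    have hcos : Real.cos φ = ‖v‖ / (2 * R) := by
      rw [hφ, Real.cos_arccos]
      · have : 0 ≤ ‖v‖ / (2 * R) := by positivity
        linarith
      · rw [div_le_one h2R]; exact hsmall.le
    have hφ0 : 0 ≤ φ := Real.arccos_nonneg _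
    have hφpi : φ ≤ Real.pi := Real.arccos_le_pi _
    have hR3 : 1 / (2 * R) = √3 / 2 := by
      have h3 := sqrt3_sq
      unfold R
      field_simp
      linarith
    have hφ6 : φ ≤ Real.pi / 6 := by
      by_contra hcon
      push Not at hcon
      have h5 := Real.strictAntiOn_cos (⟨by positivity, by linarith⟩ : Real.pi / 6 ∈ Icc 0 Real.pi)
        ⟨hφ0, hφpi⟩ hcon
      rw [Real.cos_pi_div_six, hcos] at h5
      have : 1 / (2 * R) ≤ ‖v‖ / (2 * R) := div_le_div_of_nonneg_right hv h2R.le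
      linarith
    have hd : ‖v‖ = 2 * R * Real.cos φ := by rw [hcos]; field_simp
    have hφ2 : φ < Real.pi / 2 := by linarith
    obtain ⟨r1, r2⟩ := vol_rot v hv0
    have e1 : sC v = φ / 3 := by
      unfold sC
      rw [r2, vol_sec hv0 hφ0 hφ2 hd, ENNReal.toReal_ofReal (by positivity)]
    have e2 : aC v = (φ - Real.sin φ * Real.cos φ) / 3 := by
      unfold aC
      rw [r1, vol_cap hv0 hφ0 hφ2 hd]
    have e3 : gam * sC v - aC v =
        (Real.sin φ * Real.cos φ - 3 * √3 / (2 * Real.pi) * φ) / 3 := by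
      rw [e1, e2]; unfold gam; ring
    rw [e3, e1]
    rcases le_total φ (Real.pi / 12) with h | h
    · have h6 := h_low hφ0 h
      rw [← hc0] at h6
      have h7 : 0 ≤ c0 * φ := by positivity
      refine ⟨by linarith, Or.inr ?_⟩
      calc φ / 3 = 1 / c0 * (c0 * φ / 3) := by field_simp
        _ ≤ 1 / c0 * ((Real.sin φ * Real.cos φ - 3 * √3 / (2 * Real.pi) * φ) / 3) := by
            refine mul_le_mul_of_nonneg_left (by linarith) (by positivity)
        _ ≤ _ := by
            refine mul_le_mul_of_nonneg_right ?_ (by linarith)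
            have : 0 ≤ 6 * R / c0 := by positivity
            linarith
    · have h6 := h_high h hφ6
      rw [← hc0] at h6
      have h7 : 0 ≤ c0 * (Real.pi / 6 - φ) := mul_nonneg hc0p.le (by linarith)
      refine ⟨by linarith, Or.inl ?_⟩
      have h8 : Real.cos φ - Real.cos (Real.pi / 6) ≤ Real.pi / 6 - φ := by
        rw [Real.cos_sub_cos]
        have a1 : Real.sin ((φ - Real.pi / 6) / 2) = -Real.sin ((Real.pi / 6 - φ) / 2) := by
          rw [← Real.sin_neg]; congr 1; ring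
        rw [a1]
        have a2 : Real.sin ((Real.pi / 6 - φ) / 2) ≤ (Real.pi / 6 - φ) / 2 :=
          Real.sin_le (by linarith)
        have a3 : 0 ≤ Real.sin ((Real.pi / 6 - φ) / 2) :=
          Real.sin_nonneg_of_nonneg_of_le_pi (by linarith) (by linarith)
        have a4 := Real.sin_le_one ((φ + Real.pi / 6) / 2)
        nlinarith
      have h9 : ‖v‖ - 1 = 2 * R * (Real.cos φ - Real.cos (Real.pi / 6)) := by
        rw [mul_sub, ← hd, Real.cos_pi_div_six, ← hR3]
        field_simp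
      calc ‖v‖ - 1 ≤ 2 * R * (Real.pi / 6 - φ) := by
            rw [h9]; exact mul_le_mul_of_nonneg_left h8 h2R.le
        _ = 6 * R / c0 * (c0 * (Real.pi / 6 - φ) / 3) := by field_simp; ring
        _ ≤ 6 * R / c0 * ((Real.sin φ * Real.cos φ - 3 * √3 / (2 * Real.pi) * φ) / 3) := by
            refine mul_le_mul_of_nonneg_left (by linarith) (by positivity)
        _ ≤ _ := by
            refine mul_le_mul_of_nonneg_right ?_ (by linarith)
            have : 0 ≤ 1 / c0 := by positivity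
            linarith

end Pool.Agent.J4.H83.FV
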