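import Pool.Agent.J4.H83.FV.Upper3

/-!
# The lower bound for the volume of the configuration space
-/

set_option autoImplicit false

open MeasureTheory Set

namespace Pool.Agent.J4.H83.FV

/-- the sites of the hexagonal lattice with spacing `s` -/
noncomputable def site (s : ℝ) (a : ℕ × ℕ) : ℂ :=
  ⟨s * (a.1 + (a.2 % 2 : ℕ) / 2 + 1 / 4), √3 / 2 * s * a.2 + s / 4⟩

lemma site_dist {s : ℝ} (hs : 0 < s) {a b : ℕ × ℕ} (hab : a ≠ b) :
    s ≤ ‖site s a - site s b‖ := by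
  have h3 := sqrt3_sq
  have h3p : 0 < √3 := by positivity
  rw [← sq_le_sq₀ hs.le (norm_nonneg _), nsq, Complex.sub_re, Complex.sub_im]
  simp only [site]
  set u : ℤ := (a.1 : ℤ) - b.1 with hu
  set w : ℤ := (a.2 : ℤ) - b.2 with hw
  set e : ℤ := ((a.2 % 2 : ℕ) : ℤ) - ((b.2 % 2 : ℕ) : ℤ) with he
  have e1 : s * (a.1 + (a.2 % 2 : ℕ) / 2 + 1 / 4) - s * (b.1 + (b.2 % 2 : ℕ) / 2 + 1 / 4) =
      s / 2 * ((2 * u + e : ℤ) : ℝ) := by
    have c1 : ((2 * u + e : ℤ) : ℝ) = 2 * (u : ℝ) + (e : ℝ) := by push_cast; ring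
    have c2 : (e : ℝ) = ((a.2 % 2 : ℕ) : ℝ) - ((b.2 % 2 : ℕ) : ℝ) := by
      rw [he, Int.cast_sub, Int.cast_natCast, Int.cast_natCast]
    have c3 : (u : ℝ) = (a.1 : ℝ) - (b.1 : ℝ) := by
      rw [hu, Int.cast_sub, Int.cast_natCast, Int.cast_natCast]
    rw [c1, c2, c3]; ring
  have e2 : √3 / 2 * s * a.2 + s / 4 - (√3 / 2 * s * b.2 + s / 4) = √3 / 2 * s * (w : ℝ) := by
    rw [hw]; push_cast; ring
  rw [e1, e2]
  have e3 : (s / 2 * ((2 * u + e : ℤ) : ℝ)) ^ 2 + (√3 / 2 * s * (w : ℝ)) ^ 2 =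
      s ^ 2 / 4 * ((((2 * u + e) ^ 2 + 3 * w ^ 2 : ℤ)) : ℝ) := by
    push_cast
    have : (√3 / 2 * s * (w : ℝ)) ^ 2 = s ^ 2 / 4 * (√3 ^ 2 * (w : ℝ) ^ 2) := by ring
    rw [this, h3]
    ring
  rw [e3]
  have h4 : 4 ≤ (2 * u + e) ^ 2 + 3 * w ^ 2 := by
    rcases eq_or_ne w 0 with h0 | h0
    · have he0 : e = 0 := by
        have : a.2 = b.2 := by omega
        rw [he, this]; ring
      have hu0 : u ≠ 0 := by
        intro h
        apply hab
        ext <;> omega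
      have : 1 ≤ u ^ 2 := by
        have := sq_nonneg u
        rcases lt_or_gt_of_ne hu0 with h | h <;> nlinarith
      rw [he0, h0]
      nlinarith
    · by_cases h1 : 2 ≤ |w|
      · have : 4 ≤ w ^ 2 := by
          rw [← sq_abs]; nlinarith
        nlinarith [sq_nonneg (2 * u + e)]
      · have hw1 : |w| = 1 := by
          have : 0 < |w| := abs_pos.2 h0
          omega
        have hw2 : w ^ 2 = 1 := by rw [← sq_abs, hw1]; norm_num
        have hodd : 2 * u + e ≠ 0 := by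
          intro h
          have h5 : w = 1 ∨ w = -1 := by
            rcases abs_cases w with ⟨h6, -⟩ | ⟨h6, -⟩ <;> omega
          omega
        have : 1 ≤ (2 * u + e) ^ 2 := by
          rcases lt_or_gt_of_ne hodd with h | h <;> nlinarith
        rw [hw2]
        linarith
  have h5 : (4 : ℝ) ≤ ((((2 * u + e) ^ 2 + 3 * w ^ 2 : ℤ)) : ℝ) := by exact_mod_cast h4
  have h6 : 0 < s ^ 2 := by positivity
  nlinarith

/-- the square around a site -/
def Bx (h : ℝ) (p : ℂ) : Set ℂ := {z | |z.re - p.re| ≤ h ∧ |z.im - p.im| ≤ h}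

lemma Bx_eq (h : ℝ) (p : ℂ) : Bx h p = Complex.measurableEquivRealProd ⁻¹'
    (Icc (p.re - h) (p.re + h) ×ˢ Icc (p.im - h) (p.im + h)) := by
  ext z
  simp only [Bx, mem_setOf_eq, mem_preimage, Complex.measurableEquivRealProd_apply, mem_prod,
    mem_Icc, abs_le]
  constructor
  · rintro ⟨⟨h1, h2⟩, h3, h4⟩
    refine ⟨⟨by linarith, by linarith⟩, by linarith, by linarith⟩
  · rintro ⟨⟨h1, h2⟩, h3, h4⟩
    refine ⟨⟨by linarith, by linarith⟩, by linarith, by linarith⟩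

lemma Bx_meas (h : ℝ) (p : ℂ) : MeasurableSet (Bx h p) := by
  rw [Bx_eq]
  exact Complex.measurableEquivRealProd.measurable (measurableSet_Icc.prod measurableSet_Icc)

lemma vol_Bx {h : ℝ} (hh : 0 ≤ h) (p : ℂ) : volume (Bx h p) = ENNReal.ofReal ((2 * h) ^ 2) := by
  rw [Bx_eq, Complex.volume_preserving_equiv_real_prod.measure_preimage_equiv,
    Measure.volume_eq_prod, Measure.prod_prod, Real.volume_Icc, Real.volume_Icc,
    ← ENNReal.ofReal_mul (by linarith)]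
  congr 1
  ring

lemma Bx_norm {h : ℝ} {p z : ℂ} (hz : z ∈ Bx h p) : ‖z - p‖ ≤ 2 * h := by
  have h1 := Complex.norm_le_abs_re_add_abs_im (z - p)
  rw [Complex.sub_re, Complex.sub_im] at h1
  linarith [hz.1, hz.2]

theorem lower {s L : ℝ} (hs : 1 < s) {M₁ M₂ N : ℕ} (h1 : s * M₁ ≤ L) (h2 : √3 / 2 * s * M₂ ≤ L)
    (hN : N ≤ M₁ * M₂) :
    ENNReal.ofReal (N.factorial * (((s - 1) / 2) ^ 2) ^ N) ≤ volume (A N L) := by
  classical
  have hs0 : 0 < s := by linarith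
  have h3 := sqrt3_sq
  have h3p : 1 < √3 := by
    rw [show (1 : ℝ) = √1 by simp]
    exact Real.sqrt_lt_sqrt (by norm_num) (by norm_num)
  obtain ⟨g⟩ : Nonempty (Fin N ↪ Fin M₁ × Fin M₂) := by
    rw [Function.Embedding.nonempty_iff_card_le]
    simpa using hN
  set h : ℝ := (s - 1) / 4 with hh
  have hh0 : 0 ≤ h := by rw [hh]; linarith
  set p : Fin N → ℂ := fun i => site s ((g i).1, (g i).2) with hp
  have hpd : ∀ i j, i ≠ j → s ≤ ‖p i - p j‖ := by
    intro i j hij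
    refine site_dist hs0 fun hc => hij (g.injective ?_)
    simp only [Prod.mk.injEq] at hc
    exact Prod.ext (Fin.ext hc.1) (Fin.ext hc.2)
  have hsep : ∀ i j, i ≠ j → ∀ z ∈ Bx h (p i), ∀ w ∈ Bx h (p j), 1 ≤ ‖z - w‖ := by
    intro i j hij z hz w hw
    have a1 := Bx_norm hz
    have a2 := Bx_norm hw
    have a3 := hpd i j hij
    have a4 : ‖p i - p j‖ ≤ ‖z - p i‖ + ‖z - w‖ + ‖w - p j‖ := by
      calc ‖p i - p j‖ = ‖(z - w) - (z - p i) + (w - p j)‖ := by congr 1; ring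
        _ ≤ ‖(z - w) - (z - p i)‖ + ‖w - p j‖ := norm_add_le _ _
        _ ≤ ‖z - w‖ + ‖z - p i‖ + ‖w - p j‖ := by
            have := norm_sub_le (z - w) (z - p i); linarith
        _ = _ := by ring
    linarith
  have hin : ∀ i, Bx h (p i) ⊆ box 0 L := by
    intro i z hz
    obtain ⟨hz1, hz2⟩ := hz
    rw [abs_le] at hz1 hz2
    have e1 : (p i).re = s * ((g i).1 + (((g i).2 : ℕ) % 2 : ℕ) / 2 + 1 / 4) := rfl
    have e2 : (p i).im = √3 / 2 * s * ((g i).2 : ℕ) + s / 4 := rfl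
    have f1 : (((g i).1 : ℕ) : ℝ) + 1 ≤ M₁ := by exact_mod_cast (g i).1.2
    have f2 : (((g i).2 : ℕ) : ℝ) + 1 ≤ M₂ := by exact_mod_cast (g i).2.2
    have f3 : (((((g i).2 : ℕ) % 2 : ℕ)) : ℝ) ≤ 1 := by
      have : ((g i).2 : ℕ) % 2 ≤ 1 := by omega
      exact_mod_cast this
    have f4 : (0 : ℝ) ≤ ((((g i).2 : ℕ) % 2 : ℕ)) := Nat.cast_nonneg _
    have f5 : (0 : ℝ) ≤ (((g i).1 : ℕ) : ℝ) := Nat.cast_nonneg _
    have f6 : (0 : ℝ) ≤ (((g i).2 : ℕ) : ℝ) := Nat.cast_nonneg _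
    have g1 : s / 4 ≤ (p i).re := by rw [e1]; nlinarith
    have g2 : (p i).re ≤ s * M₁ - s / 4 := by rw [e1]; nlinarith
    have g3 : s / 4 ≤ (p i).im := by
      rw [e2]
      have : 0 ≤ √3 / 2 * s * (((g i).2 : ℕ) : ℝ) := by positivity
      linarith
    have g4 : (p i).im ≤ √3 / 2 * s * M₂ - s / 4 := by
      rw [e2]
      have a1 : √3 / 2 * s * ((((g i).2 : ℕ) : ℝ) + 1) ≤ √3 / 2 * s * M₂ :=
        mul_le_mul_of_nonneg_left f2 (by positivity)
      have a2 : s / 2 ≤ √3 / 2 * s := by nlinarith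
      linarith
    exact ⟨⟨by linarith, by linarith⟩, by linarith, by linarith⟩
  set P : Equiv.Perm (Fin N) → Set (Fin N → ℂ) := fun σ => Set.pi univ fun i => Bx h (p (σ i)) with hP
  have hPm : ∀ σ, MeasurableSet (P σ) := fun σ => MeasurableSet.univ_pi fun i => Bx_meas _ _
  have hPv : ∀ σ, volume (P σ) = ENNReal.ofReal ((((s - 1) / 2) ^ 2) ^ N) := by
    intro σ
    rw [hP, volume_pi_pi]
    simp_rw [vol_Bx hh0]
    rw [Finset.prod_const, Finset.card_univ, Fintype.card_fin, ← ENNReal.ofReal_pow (by positivity)]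
    congr 3
    rw [hh]; ring
  have hdis : Pairwise (Function.onFun Disjoint P) := by
    intro σ τ hst
    rw [Function.onFun, Set.disjoint_left]
    intro x hx hy
    obtain ⟨i, hi⟩ : ∃ i, σ i ≠ τ i := by
      by_contra hcon
      push Not at hcon
      exact hst (Equiv.ext hcon)
    have := hsep _ _ hi (x i) (hx i (mem_univ i)) (x i) (hy i (mem_univ i))
    rw [sub_self, norm_zero] at this
    linarith
  have hsub : (⋃ σ, P σ) ⊆ A N L := by
    intro x hx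
    rw [mem_iUnion] at hx
    obtain ⟨σ, hσ⟩ := hx
    refine ⟨fun i => hin _ (hσ i (mem_univ i)), fun i j hij => ?_⟩
    exact hsep _ _ (fun hc => hij (σ.injective hc)) _ (hσ i (mem_univ i)) _ (hσ j (mem_univ j))
  calc ENNReal.ofReal (N.factorial * (((s - 1) / 2) ^ 2) ^ N)
      = ∑ σ : Equiv.Perm (Fin N), volume (P σ) := by
        simp_rw [hPv]
        rw [Finset.sum_const, Finset.card_univ, Fintype.card_perm, Fintype.card_fin, nsmul_eq_mul,
          ENNReal.ofReal_mul (Nat.cast_nonneg _), ENNReal.ofReal_natCast]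
    _ = volume (⋃ σ, P σ) := by rw [measure_iUnion hdis hPm, tsum_fintype]
    _ ≤ _ := measure_mono hsub

end Pool.Agent.J4.H83.FV
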