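import Pool.Agent.J4.H83.FV.Local

/-!
# A truncated Voronoi cell of small excess has two near neighbours below
-/

set_option autoImplicit false

open MeasureTheory Set

namespace Pool.Agent.J4.H83.FV

variable {ι : Type*}

/-- the truncated Voronoi cell of the origin -/
def T (J : Finset ι) (v : ι → ℂ) : Set ℂ := {z | ‖z‖ < R ∧ ∀ j ∈ J, ‖z‖ < ‖z - v j‖}

lemma vol_disc : volume (Metric.ball (0 : ℂ) R) = ENNReal.ofReal (Real.pi / 3) := by
  rw [Complex.volume_ball]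
  rw [← ENNReal.ofReal_pow R_pos.le, R_sq, ← NNReal.coe_real_pi]
  rw [show ((NNReal.pi : NNReal) : ENNReal) = ENNReal.ofReal (NNReal.pi : ℝ) by
    rw [ENNReal.ofReal_coe_nnreal]]
  rw [← ENNReal.ofReal_mul (by norm_num)]
  congr 1
  ring

lemma T_eq (J : Finset ι) (v : ι → ℂ) : T J v = Metric.ball 0 R \ ⋃ j ∈ J, cap (v j) := by
  ext z
  simp only [T, cap, mem_diff, mem_iUnion, mem_setOf_eq, mem_ball_zero_iff, not_exists, not_and,
    not_le, exists_prop]
  constructor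
  · rintro ⟨h1, h2⟩
    exact ⟨h1, fun j hj _ => h2 j hj⟩
  · rintro ⟨h1, h2⟩
    exact ⟨h1, fun j hj => h2 j hj h1⟩

lemma T_meas (J : Finset ι) (v : ι → ℂ) : MeasurableSet (T J v) := by
  rw [T_eq]
  exact measurableSet_ball.diff (Finset.measurableSet_biUnion _ fun j _ => cap_meas _)

lemma vol_T (J : Finset ι) (v : ι → ℂ) (hv : ∀ j ∈ J, 1 ≤ ‖v j‖)
    (hvv : ∀ j ∈ J, ∀ k ∈ J, j ≠ k → 1 ≤ ‖v j - v k‖) :
    (volume (T J v)).toReal = Real.pi / 3 - ∑ j ∈ J, aC (v j) := by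
  have hpi := Real.pi_pos
  have hU : volume (⋃ j ∈ J, cap (v j)) = ∑ j ∈ J, volume (cap (v j)) :=
    measure_biUnion_finset (fun j hj k hk hjk => cap_disjoint (hv j hj) (hv k hk) (hvv j hj k hk hjk))
      fun j _ => cap_meas _
  have hfin : ∀ j, volume (cap (v j)) ≠ ⊤ := fun j =>
    ((measure_mono (cap_sub _)).trans_lt measure_ball_lt_top).ne
  have hUm : MeasurableSet (⋃ j ∈ J, cap (v j)) := Finset.measurableSet_biUnion _ fun j _ => cap_meas _
  have hsub : (⋃ j ∈ J, cap (v j)) ⊆ Metric.ball 0 R := iUnion₂_subset fun j _ => cap_sub _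
  have hUfin : volume (⋃ j ∈ J, cap (v j)) ≠ ⊤ :=
    ((measure_mono hsub).trans_lt measure_ball_lt_top).ne
  rw [T_eq, measure_diff hsub hUm.nullMeasurableSet hUfin,
    ENNReal.toReal_sub_of_le (measure_mono hsub) measure_ball_lt_top.ne, vol_disc,
    ENNReal.toReal_ofReal (by positivity), hU, ENNReal.toReal_sum fun j _ => hfin j]
  rfl

lemma sum_sC (S : Finset ι) (v : ι → ℂ) (hv : ∀ j ∈ S, 1 ≤ ‖v j‖)
    (hvv : ∀ j ∈ S, ∀ k ∈ S, j ≠ k → 1 ≤ ‖v j - v k‖) (W : Set ℂ) (hW : W ⊆ Metric.ball 0 R)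
    (hd : ∀ j ∈ S, Disjoint W (sec (v j))) :
    (volume W).toReal + ∑ j ∈ S, sC (v j) ≤ Real.pi / 3 := by
  have hpi := Real.pi_pos
  have hU : volume (⋃ j ∈ S, sec (v j)) = ∑ j ∈ S, volume (sec (v j)) :=
    measure_biUnion_finset (fun j hj k hk hjk => sec_disjoint (hv j hj) (hv k hk) (hvv j hj k hk hjk))
      fun j _ => sec_meas _
  have hfin : ∀ j, volume (sec (v j)) ≠ ⊤ := fun j =>
    ((measure_mono (sec_sub _)).trans_lt measure_ball_lt_top).ne
  have hUm : MeasurableSet (⋃ j ∈ S, sec (v j)) := Finset.measurableSet_biUnion _ fun j _ => sec_meas _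
  have hsub : (⋃ j ∈ S, sec (v j)) ⊆ Metric.ball 0 R := iUnion₂_subset fun j _ => sec_sub _
  have hUfin : volume (⋃ j ∈ S, sec (v j)) ≠ ⊤ :=
    ((measure_mono hsub).trans_lt measure_ball_lt_top).ne
  have hWfin : volume W ≠ ⊤ := ((measure_mono hW).trans_lt measure_ball_lt_top).ne
  have hdis : Disjoint W (⋃ j ∈ S, sec (v j)) := by
    rw [Set.disjoint_iUnion₂_right]
    exact hd
  have h1 : volume (W ∪ ⋃ j ∈ S, sec (v j)) ≤ volume (Metric.ball (0 : ℂ) R) :=
    measure_mono (union_subset hW hsub)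
  rw [measure_union hdis hUm, hU, vol_disc] at h1
  have h2 := ENNReal.toReal_mono ENNReal.ofReal_ne_top h1
  rw [ENNReal.toReal_ofReal (by positivity), ENNReal.toReal_add hWfin
    (ENNReal.sum_ne_top.2 fun j _ => hfin j), ENNReal.toReal_sum fun j _ => hfin j] at h2
  exact h2

/-- the windows -/
def Wn (σ : ℝ) : Set ℂ := {z | 0 < ‖z‖ ∧ ‖z‖ < R ∧ σ * z.re < -0.68 * ‖z‖ ∧ z.im < -0.68 * ‖z‖}

lemma Wn_pos {σ : ℝ} (hσ : σ = 1 ∨ σ = -1) : 0 < (volume (Wn σ)).toReal := by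
  have hopen : IsOpen (Wn σ) := by
    have h : Wn σ = {z | 0 < ‖z‖} ∩ ({z | ‖z‖ < R} ∩ ({z | σ * z.re < -0.68 * ‖z‖} ∩
      {z | z.im < -0.68 * ‖z‖})) := rfl
    rw [h]
    have h1 : Continuous fun z : ℂ => z.re := Complex.continuous_re
    have h2 : Continuous fun z : ℂ => z.im := Complex.continuous_im
    exact (isOpen_lt continuous_const continuous_norm).inter
      ((isOpen_lt continuous_norm continuous_const).inter
      ((isOpen_lt (by fun_prop) (by fun_prop)).inter (isOpen_lt h2 (by fun_prop))))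
  have hne : (Wn σ).Nonempty := by
    refine ⟨⟨-σ / 4, -1 / 4⟩, ?_⟩
    have hs : σ ^ 2 = 1 := by rcases hσ with rfl | rfl <;> norm_num
    have hn : ‖(⟨-σ / 4, -1 / 4⟩ : ℂ)‖ ^ 2 = 1 / 8 := by
      rw [nsq]
      simp only
      nlinarith
    set x := ‖(⟨-σ / 4, -1 / 4⟩ : ℂ)‖
    have hx0 : 0 ≤ x := norm_nonneg _
    have hx1 : 0 < x := by
      rcases hx0.eq_or_lt with h | h
      · rw [← h] at hn; norm_num at hn
      · exact h
    have hx2 : x < 0.36 := by nlinarith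
    have hx3 : x < R := by linarith [R_gt]
    have hx4 : σ * (-σ / 4) < -0.68 * x := by nlinarith
    have hx5 : (-1 / 4 : ℝ) < -0.68 * x := by linarith
    exact ⟨hx1, hx3, hx4, hx5⟩
  have hp := hopen.measure_pos volume hne
  have hfin : volume (Wn σ) ≠ ⊤ := by
    refine ((measure_mono (t := Metric.ball (0 : ℂ) R) fun z hz => ?_).trans_lt
      measure_ball_lt_top).ne
    rw [mem_ball_zero_iff]; exact hz.2.1
  exact ENNReal.toReal_pos hp.ne' hfin

/-- the direction of a neighbour whose sector meets a window -/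
lemma dir {σ : ℝ} {z v : ℂ} (hσ : σ = 1 ∨ σ = -1) (hz : z ∈ Wn σ) (hv : 1 ≤ ‖v‖)
    (hs : z ∈ sec v) : σ * v.re ≤ -0.15 ∧ v.im ≤ -0.15 := by
  obtain ⟨h0, -, h1, h2⟩ := hz
  obtain ⟨-, -, h3⟩ := hs
  have hσ2 : σ ^ 2 = 1 := by rcases hσ with rfl | rfl <;> norm_num
  have hR2 := R_sq
  have hRp := R_pos
  have hR1 := R_lt
  set n := ‖z‖ with hn
  set m := ‖v‖ with hm
  have hzn := nsq z
  have hvn := nsq v
  rw [← hn] at hzn
  rw [← hm] at hvn
  have hm0 : 0 < m := by linarith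
  -- the inner product is large
  have h4 : 0.866 * (n * m) ≤ z.re * v.re + z.im * v.im := by
    have h5 : m * n ≤ m ^ 2 * n := mul_le_mul_of_nonneg_right (by nlinarith) h0.le
    have h6 : 2 * R * (z.re * v.re + z.im * v.im) ≤ 2 * 0.5774 * (z.re * v.re + z.im * v.im) := by
      have h7 : 0 ≤ z.re * v.re + z.im * v.im := by
        by_contra hcon
        push Not at hcon
        have : 2 * R * (z.re * v.re + z.im * v.im) < 0 := mul_neg_of_pos_of_neg (by positivity) hcon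
        have : 0 ≤ m ^ 2 * n := by positivity
        linarith
      nlinarith
    nlinarith [mul_pos h0 hm0]
  -- squares of the differences
  have h8 : (σ * v.re * n - σ * z.re * m) ^ 2 + (v.im * n - z.im * m) ^ 2 ≤ 0.268 * (n * m) ^ 2 := by
    have e : (σ * v.re * n - σ * z.re * m) ^ 2 + (v.im * n - z.im * m) ^ 2 =
        (v.re ^ 2 + v.im ^ 2) * n ^ 2 + (z.re ^ 2 + z.im ^ 2) * m ^ 2 -
          2 * (n * m) * (z.re * v.re + z.im * v.im) := by
      linear_combination ((v.re * n - z.re * m) ^ 2) * hσ2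
    rw [e, ← hzn, ← hvn]
    nlinarith [mul_pos h0 hm0]
  have h9 : ∀ x y : ℝ, (x * n - y * m) ^ 2 ≤ 0.268 * (n * m) ^ 2 → y < -0.68 * n → x ≤ -0.15 := by
    intro x y h hy
    have h10 : |x * n - y * m| ≤ 0.52 * (n * m) := by
      refine abs_le_of_sq_le_sq ?_ (by positivity)
      nlinarith [mul_pos h0 hm0]
    have h11 := (abs_le.1 h10).2
    have h12 : x * n ≤ -0.16 * (n * m) := by nlinarith
    have h13 : x ≤ -0.16 * m := by
      have : x * n ≤ (-0.16 * m) * n := by linarith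
      exact le_of_mul_le_mul_right this h0
    linarith
  exact ⟨h9 (σ * v.re) (σ * z.re) (by nlinarith [sq_nonneg (v.im * n - z.im * m)]) h1,
    h9 v.im z.im (by nlinarith [sq_nonneg (σ * v.re * n - σ * z.re * m)]) h2⟩

/-- **Local structure.** -/
theorem local_structure : ∃ ε₀ : ℝ, 0 < ε₀ ∧ ∃ C : ℝ, 0 < C ∧ ∀ {ι : Type} (J : Finset ι)
    (v : ι → ℂ), (∀ j ∈ J, 1 ≤ ‖v j‖) → (∀ j ∈ J, ∀ k ∈ J, j ≠ k → 1 ≤ ‖v j - v k‖) →
    0 ≤ (volume (T J v)).toReal - √3 / 2 ∧ ((volume (T J v)).toReal - √3 / 2 < ε₀ →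
      ∃ j ∈ J, ∃ k ∈ J, ‖v j‖ - 1 ≤ C * ((volume (T J v)).toReal - √3 / 2) ∧
        ‖v k‖ - 1 ≤ C * ((volume (T J v)).toReal - √3 / 2) ∧
        (v j).re ≤ -0.15 ∧ (v j).im ≤ -0.15 ∧ 0.15 ≤ (v k).re ∧ (v k).im ≤ -0.15) := by
  obtain ⟨C, hC, hloc⟩ := local_ineq
  have hg := gam_pos
  set w0 := min (volume (Wn 1)).toReal (volume (Wn (-1))).toReal with hw0
  have hw0p : 0 < w0 := lt_min (Wn_pos (Or.inl rfl)) (Wn_pos (Or.inr rfl))
  refine ⟨w0 / (1 / gam + C), by positivity, C, hC, ?_⟩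
  intro ι J v hv hvv
  classical
  set E := (volume (T J v)).toReal - √3 / 2 with hE
  have hE1 : E = gam * (Real.pi / 3 - ∑ j ∈ J, sC (v j)) + ∑ j ∈ J, (gam * sC (v j) - aC (v j)) := by
    rw [hE, vol_T J v hv hvv, Finset.sum_sub_distrib, ← Finset.mul_sum]
    have := gam_eq
    linarith
  have hsum : 0 ≤ Real.pi / 3 - ∑ j ∈ J, sC (v j) := by
    have := sum_sC J v hv hvv ∅ (empty_subset _) (fun j _ => Set.empty_disjoint _)
    simp only [measure_empty, ENNReal.toReal_zero, zero_add] at this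
    linarith
  have hterm : ∀ j ∈ J, 0 ≤ gam * sC (v j) - aC (v j) := fun j hj => (hloc (v j) (hv j hj)).1
  have hE0 : 0 ≤ E := by
    rw [hE1]
    exact add_nonneg (mul_nonneg hg.le hsum) (Finset.sum_nonneg hterm)
  refine ⟨hE0, fun hlt => ?_⟩
  set Nr := J.filter fun j => ‖v j‖ - 1 ≤ C * (gam * sC (v j) - aC (v j)) with hNr
  have hNrJ : Nr ⊆ J := Finset.filter_subset _ _
  have hsingle : ∀ j ∈ J, gam * sC (v j) - aC (v j) ≤ E := by
    intro j hj
    have h1 := Finset.single_le_sum hterm hj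
    rw [hE1]
    have h2 : 0 ≤ gam * (Real.pi / 3 - ∑ j ∈ J, sC (v j)) := mul_nonneg hg.le hsum
    linarith
  -- the sectors of the near neighbours nearly fill the disc
  have hfar : ∑ j ∈ J \ Nr, sC (v j) ≤ C * E := by
    calc ∑ j ∈ J \ Nr, sC (v j) ≤ ∑ j ∈ J \ Nr, C * (gam * sC (v j) - aC (v j)) := by
          refine Finset.sum_le_sum fun j hj => ?_
          rw [Finset.mem_sdiff, hNr, Finset.mem_filter, not_and] at hj
          rcases (hloc (v j) (hv j hj.1)).2 with h | h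
          · exact absurd h (hj.2 hj.1)
          · exact h
      _ = C * ∑ j ∈ J \ Nr, (gam * sC (v j) - aC (v j)) := by rw [Finset.mul_sum]
      _ ≤ C * ∑ j ∈ J, (gam * sC (v j) - aC (v j)) := by
          refine mul_le_mul_of_nonneg_left ?_ hC.le
          exact Finset.sum_le_sum_of_subset_of_nonneg Finset.sdiff_subset fun j hj _ => hterm j hj
      _ ≤ C * E := by
          refine mul_le_mul_of_nonneg_left ?_ hC.le
          rw [hE1]
          have h2 : 0 ≤ gam * (Real.pi / 3 - ∑ j ∈ J, sC (v j)) := mul_nonneg hg.le hsum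
          linarith
  have hdef : Real.pi / 3 - ∑ j ∈ J, sC (v j) ≤ E / gam := by
    rw [le_div_iff₀ hg]
    have := Finset.sum_nonneg hterm
    rw [hE1]
    linarith
  have hnear : Real.pi / 3 - ∑ j ∈ Nr, sC (v j) < w0 := by
    have h1 : ∑ j ∈ J, sC (v j) = ∑ j ∈ J \ Nr, sC (v j) + ∑ j ∈ Nr, sC (v j) :=
      (Finset.sum_sdiff hNrJ).symm
    have h2 : E * (1 / gam + C) < w0 := by
      rw [← lt_div_iff₀ (by positivity)]; exact hlt
    have h3 : E * (1 / gam + C) = E / gam + C * E := by ring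
    linarith
  have hwin : ∀ σ : ℝ, (σ = 1 ∨ σ = -1) → w0 ≤ (volume (Wn σ)).toReal →
      ∃ j ∈ J, ‖v j‖ - 1 ≤ C * E ∧ σ * (v j).re ≤ -0.15 ∧ (v j).im ≤ -0.15 := by
    intro σ hσ hw
    by_contra hcon
    push Not at hcon
    have h1 : ∀ j ∈ Nr, Disjoint (Wn σ) (sec (v j)) := by
      intro j hj
      rw [Set.disjoint_left]
      intro z hz1 hz2
      have hjJ := hNrJ hj
      obtain ⟨d1, d2⟩ := dir hσ hz1 (hv j hjJ) hz2
      have h3 : ‖v j‖ - 1 ≤ C * E :=
        ((Finset.mem_filter.1 hj).2).trans (mul_le_mul_of_nonneg_left (hsingle j hjJ) hC.le)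
      have := hcon j hjJ h3 d1
      linarith
    have h2 := sum_sC Nr v (fun j hj => hv j (hNrJ hj))
      (fun j hj k hk => hvv j (hNrJ hj) k (hNrJ hk)) (Wn σ)
      (fun z hz => by rw [mem_ball_zero_iff]; exact hz.2.1) h1
    linarith
  obtain ⟨j, hj, j1, j2, j3⟩ := hwin 1 (Or.inl rfl) (min_le_left _ _)
  obtain ⟨k, hk, k1, k2, k3⟩ := hwin (-1) (Or.inr rfl) (min_le_right _ _)
  exact ⟨j, hj, k, hk, j1, k1, by linarith, j3, by linarith, k3⟩

end Pool.Agent.J4.H83.FV
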