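import Pool.Agent.J4.H83.FV.Slope

/-!
# Disks of radius `a`
-/

set_option autoImplicit false

open MeasureTheory Set Filter Topology
open scoped Pointwise

namespace Pool.Agent.J4.H83.FV

/-- the configuration space in coordinates -/
def B (N : ℕ) (a L : ℝ) : Set (Fin N → Fin 2 → ℝ) :=
  {x | (∀ i k, x i k ∈ Icc (0 : ℝ) L) ∧ ∀ i j, i ≠ j → (2 * a) ^ 2 ≤ ∑ k, (x i k - x j k) ^ 2}

lemma vol_B (N : ℕ) {a : ℝ} (ha : 0 < a) (L : ℝ) :
    volume (B N a L) = ENNReal.ofReal ((2 * a) ^ (2 * N)) * volume (A N (L / (2 * a))) := by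
  have h2a : 0 < 2 * a := by positivity
  have hmp : MeasurePreserving (fun (x : Fin N → ℂ) i => Complex.measurableEquivPi (x i))
      volume volume := volume_preserving_pi fun _ => Complex.volume_preserving_equiv_pi
  have hclosed : MeasurableSet (B N a L) := by
    have h : B N a L = (⋂ i, ⋂ k, {x : Fin N → Fin 2 → ℝ | x i k ∈ Icc (0 : ℝ) L}) ∩
        ⋂ i, ⋂ j, ⋂ _ : i ≠ j,
          {x : Fin N → Fin 2 → ℝ | (2 * a) ^ 2 ≤ ∑ k, (x i k - x j k) ^ 2} := by
      ext x; simp [B]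
    rw [h]
    refine (MeasurableSet.iInter fun i => MeasurableSet.iInter fun k => ?_).inter
      (MeasurableSet.iInter fun i => MeasurableSet.iInter fun j => MeasurableSet.iInter fun _ =>
        measurableSet_le measurable_const (by fun_prop))
    exact ((measurable_pi_apply k).comp (measurable_pi_apply i)) measurableSet_Icc
  rw [← hmp.measure_preimage hclosed.nullMeasurableSet]
  have hset : (fun (x : Fin N → ℂ) i => Complex.measurableEquivPi (x i)) ⁻¹' (B N a L) =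
      (2 * a) • (A N (L / (2 * a))) := by
    ext x
    rw [Set.mem_smul_set_iff_inv_smul_mem₀ h2a.ne']
    simp only [B, A, box, mem_preimage, mem_setOf_eq, Complex.measurableEquivPi_apply,
      Fin.forall_fin_two, Fin.sum_univ_two, Matrix.cons_val_zero, Matrix.cons_val_one,
      Pi.smul_apply, mem_Icc]
    have e1 : ∀ i, ((2 * a)⁻¹ • x i).re = (2 * a)⁻¹ * (x i).re := fun i => by
      rw [Complex.smul_re, smul_eq_mul]
    have e2 : ∀ i, ((2 * a)⁻¹ • x i).im = (2 * a)⁻¹ * (x i).im := fun i => by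
      rw [Complex.smul_im, smul_eq_mul]
    refine and_congr (forall_congr' fun i => ?_) (forall_congr' fun i => forall_congr' fun j =>
      imp_congr_right fun _ => ?_)
    · rw [e1, e2]
      have c1 : ∀ y : ℝ, (0 ≤ (2 * a)⁻¹ * y ∧ (2 * a)⁻¹ * y ≤ L / (2 * a)) ↔ (0 ≤ y ∧ y ≤ L) := by
        intro y
        rw [inv_mul_eq_div, div_le_div_iff_of_pos_right h2a]
        refine and_congr ⟨fun h => ?_, fun h => by positivity⟩ Iff.rfl
        by_contra hc
        push Not at hc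
        have := div_neg_of_neg_of_pos hc h2a
        linarith
      rw [c1, c1]
    · rw [← smul_sub, norm_smul, Real.norm_eq_abs, abs_of_pos (inv_pos.2 h2a)]
      have c2 : 1 ≤ (2 * a)⁻¹ * ‖x i - x j‖ ↔ 2 * a ≤ ‖x i - x j‖ := by
        rw [inv_mul_eq_div, le_div_iff₀ h2a, one_mul]
      rw [c2, ← sq_le_sq₀ h2a.le (norm_nonneg _), nsq, Complex.sub_re, Complex.sub_im]
  rw [hset, Measure.addHaar_smul]
  congr 2
  have hfr : Module.finrank ℝ (Fin N → ℂ) = 2 * N := by
    rw [Module.finrank_pi_fintype]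
    simp [Complex.finrank_real_complex, mul_comm]
  rw [hfr, abs_of_pos (by positivity)]

/-- The hard-core function: `1` if the balls of radius `a` at distance `t` do not overlap. -/
noncomputable def S (a t : ℝ) : ℝ := if 2 * a ≤ t then 1 else 0

/-- The partition function `Z(Λ, N) = (1/N!) ∫_{Λ^N} ∏_{i<j} S(|x_i - x_j|) dx` of the cube
`Λ = [0, L]^d` in `ℝ^d`. -/
noncomputable def Z (d : ℕ) (a L : ℝ) (N : ℕ) : ℝ :=
  1 / (N.factorial : ℝ) * ∫ x in {x : Fin N → Fin d → ℝ | ∀ i k, x i k ∈ Set.Icc (0 : ℝ) L},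
    ∏ i, ∏ j ∈ Finset.Ioi i, S a (√(∑ k, (x i k - x j k) ^ 2))

lemma Z_eq {a : ℝ} (ha : 0 < a) (L : ℝ) (N : ℕ) :
    Z 2 a L N = (volume (B N a L)).toReal / N.factorial := by
  classical
  unfold Z
  rw [one_div, inv_mul_eq_div]
  congr 1
  set C : Set (Fin N → Fin 2 → ℝ) := {x | ∀ i k, x i k ∈ Set.Icc (0 : ℝ) L} with hC
  set G : Set (Fin N → Fin 2 → ℝ) := {x | ∀ i, ∀ j ∈ Finset.Ioi i,
    2 * a ≤ √(∑ k, (x i k - x j k) ^ 2)} with hG
  have h1 : ∀ x : Fin N → Fin 2 → ℝ, ∏ i, ∏ j ∈ Finset.Ioi i, S a (√(∑ k, (x i k - x j k) ^ 2)) =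
      G.indicator (fun _ => (1 : ℝ)) x := by
    intro x
    by_cases hx : x ∈ G
    · rw [Set.indicator_of_mem hx]
      refine Finset.prod_eq_one fun i _ => Finset.prod_eq_one fun j hj => ?_
      unfold S
      rw [if_pos (hx i j hj)]
    · rw [Set.indicator_of_notMem hx]
      have hx' : ¬ ∀ i, ∀ j ∈ Finset.Ioi i, 2 * a ≤ √(∑ k, (x i k - x j k) ^ 2) := hx
      push Not at hx'
      obtain ⟨i, j, hj, hij⟩ := hx'
      refine Finset.prod_eq_zero (Finset.mem_univ i) (Finset.prod_eq_zero hj ?_)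
      unfold S
      rw [if_neg (not_le.2 hij)]
  have hGm : MeasurableSet G := by
    have : G = ⋂ i, ⋂ j ∈ Finset.Ioi i,
        {x : Fin N → Fin 2 → ℝ | 2 * a ≤ √(∑ k, (x i k - x j k) ^ 2)} := by
      ext x
      simp [hG]
    rw [this]
    refine MeasurableSet.iInter fun i => Finset.measurableSet_biInter _ fun j _ => ?_
    exact measurableSet_le measurable_const (by fun_prop)
  simp_rw [h1]
  rw [setIntegral_indicator hGm]
  simp only [integral_const, smul_eq_mul, mul_one]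
  rw [Measure.real, Measure.restrict_apply_univ]
  congr 2
  ext x
  simp only [Set.mem_inter_iff]
  have hd : ∀ i j, (2 * a ≤ √(∑ k, (x i k - x j k) ^ 2)) ↔
      (2 * a) ^ 2 ≤ ∑ k, (x i k - x j k) ^ 2 := by
    intro i j
    exact Real.le_sqrt' (by positivity)
  constructor
  · rintro ⟨hx1, hx2⟩
    refine ⟨hx1, fun i j hij => ?_⟩
    rcases lt_or_gt_of_ne hij with h | h
    · exact (hd i j).1 (hx2 i j (Finset.mem_Ioi.2 h))
    · have h3 := (hd j i).1 (hx2 j i (Finset.mem_Ioi.2 h))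
      refine h3.trans (le_of_eq (Finset.sum_congr rfl fun k _ => ?_))
      ring
  · rintro ⟨hx1, hx2⟩
    exact ⟨hx1, fun i j hj => (hd i j).2 (hx2 i j (ne_of_lt (Finset.mem_Ioi.1 hj)))⟩

/-- scaling -/
theorem Z_scale {a : ℝ} (ha : 0 < a) (L : ℝ) (N : ℕ) :
    Z 2 a L N = (2 * a) ^ (2 * N) * zr (L / (2 * a)) N := by
  rw [Z_eq ha, vol_B N ha, zr_eq, ENNReal.toReal_mul, ENNReal.toReal_ofReal (by positivity)]
  ring

lemma log_Z {a : ℝ} (ha : 0 < a) {L : ℝ} {N : ℕ} (hN : 0 < N) (hz : 0 < zr (L / (2 * a)) N) :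
    -(1 / (N : ℝ)) * Real.log (Z 2 a L N) =
      -(1 / (N : ℝ)) * Real.log (zr (L / (2 * a)) N) - 2 * Real.log (2 * a) := by
  have hNr : (0 : ℝ) < N := by exact_mod_cast hN
  rw [Z_scale ha, Real.log_mul (by positivity) hz.ne', Real.log_pow]
  push_cast
  field_simp
  ring

end Pool.Agent.J4.H83.FV
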