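import Pool.Agent.J4.H83.FV.Conv

/-!
# Bounds for the pressure
-/

set_option autoImplicit false

open MeasureTheory Set Filter Topology

namespace Pool.Agent.J4.H83.FV

/-- there are sequences with every density -/
theorem exists_seq (ρ : ℝ) (hρ : 0 < ρ) : ∃ (L : ℕ → ℝ) (N : ℕ → ℕ), Tendsto L atTop atTop ∧
    Tendsto (fun k => (N k : ℝ) / L k ^ 2) atTop (𝓝 ρ) :=
  ⟨fun k => k, fun k => ⌊ρ * (k : ℝ) ^ 2⌋₊, tendsto_natCast_atTop_atTop,
    (tendsto_nat_floor_mul_div_atTop hρ.le).comp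
      ((tendsto_pow_atTop two_ne_zero).comp tendsto_natCast_atTop_atTop)⟩

theorem main_norm : ∃ C : ℝ, 1 ≤ C ∧
    (∀ ρ : ℝ, 0 < ρ → ρ < rc → ∀ (L : ℕ → ℝ) (N : ℕ → ℕ),
      Tendsto L atTop atTop → Tendsto (fun k => (N k : ℝ) / L k ^ 2) atTop (𝓝 ρ) →
      ∀ᶠ k in atTop, 0 < N k ∧ 0 < zr (L k) (N k) ∧
        |-(1 / (N k : ℝ)) * Real.log (zr (L k) (N k)) -
          (Real.log ρ - 2 * Real.log (1 - ρ / rc))| ≤ C) ∧
    ∀ f : ℝ → ℝ, (∀ ρ, 0 < ρ → ρ < rc → IsFE ρ (f ρ)) →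
      (∀ ρ, 0 < ρ → ρ < rc → |f ρ - (Real.log ρ - 2 * Real.log (1 - ρ / rc))| ≤ C) ∧
      ∀ v₁ v₂, vc < v₁ → v₁ < v₂ →
        1 / (C * (v₂ - vc)) ≤ (f (1 / v₁) - f (1 / v₂)) / (v₂ - v₁) ∧
        (f (1 / v₁) - f (1 / v₂)) / (v₂ - v₁) ≤ C / (v₁ - vc) := by
  obtain ⟨C₀, hC₀, has⟩ := asym
  set Q := Real.exp (2 * C₀ + 1) with hQ
  have hQ1 : 1 < Q := by rw [hQ]; exact Real.one_lt_exp_iff.2 (by linarith)
  have hQ1' : 0 < Q - 1 := by linarith
  have hlogQ : Real.log Q = 2 * C₀ + 1 := by rw [hQ, Real.log_exp]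
  set C := C₀ + (Q - 1) + (6 * C₀ + 2) * Q / (Q - 1) + 1 with hC
  have hc1 : 0 < (6 * C₀ + 2) * Q / (Q - 1) := by positivity
  have hC1 : 1 ≤ C := by rw [hC]; linarith
  refine ⟨C, hC1, fun ρ h1 h2 L N hL hN => ?_, fun f hf => ?_⟩
  · filter_upwards [has ρ h1 h2 L N hL hN] with k hk
    exact ⟨hk.1, hk.2.1, hk.2.2.trans (by rw [hC]; linarith)⟩
  have hbd : ∀ ρ, 0 < ρ → ρ < rc → |f ρ - (Real.log ρ - 2 * Real.log (1 - ρ / rc))| ≤ C₀ := by
    intro ρ h1 h2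
    obtain ⟨L, N, hL, hN⟩ := exists_seq ρ h1
    refine le_of_tendsto ((hf ρ h1 h2 L N hL hN).sub_const _).abs ?_
    filter_upwards [has ρ h1 h2 L N hL hN] with k hk
    exact hk.2.2
  have hcc : ∀ z, vc < z → 0 < 1 / z ∧ 1 / z < rc := by
    intro z hz
    have := vc_pos
    have hz0 : 0 < z := this.trans hz
    refine ⟨by positivity, ?_⟩
    rw [vc_eq] at hz
    rw [div_lt_iff₀ hz0]
    rw [div_lt_iff₀ rc_pos] at hz
    linarith
  have hG : ∀ z, vc < z → |f (1 / z) - (Real.log z - 2 * Real.log (z - vc))| ≤ C₀ := by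
    intro z hz
    obtain ⟨h1, h2⟩ := hcc z hz
    have h3 := hbd _ h1 h2
    have hz0 : 0 < z := vc_pos.trans hz
    have e : Real.log (1 / z) - 2 * Real.log (1 - 1 / z / rc) =
        Real.log z - 2 * Real.log (z - vc) := by
      have e1 : 1 - 1 / z / rc = (z - vc) / z := by
        rw [vc_eq]
        have := rc_pos
        field_simp
      rw [e1, one_div, Real.log_inv, Real.log_div (by linarith) hz0.ne']
      ring
    rwa [e] at h3
  have hconv := conv_v f hf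
  refine ⟨fun ρ h1 h2 => (hbd ρ h1 h2).trans (by rw [hC]; linarith), fun v₁ v₂ h1 h12 => ?_⟩
  have h2 : vc < v₂ := h1.trans h12
  have hvc := vc_pos
  have hd1 : 0 < v₁ - vc := by linarith
  have hd2 : 0 < v₂ - vc := by linarith
  have hd12 : 0 < v₂ - v₁ := by linarith
  constructor
  · -- lower bound
    set v₃ := vc + Q * (v₂ - vc) with hv₃
    have h23 : v₂ < v₃ := by rw [hv₃]; nlinarith
    have h3 : vc < v₃ := h2.trans h23
    have hsl := hconv.slope_mono_adjacent (x := v₁) (y := v₂) (z := v₃) h1 h3 h12 h23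
    have hd23 : v₃ - v₂ = (Q - 1) * (v₂ - vc) := by rw [hv₃]; ring
    have g2 := (abs_le.1 (hG v₂ h2)).1
    have g3 := (abs_le.1 (hG v₃ h3)).2
    have e3 : Real.log (v₃ - vc) = Real.log Q + Real.log (v₂ - vc) := by
      rw [← Real.log_mul (by linarith) hd2.ne']; congr 1; rw [hv₃]; ring
    have e4 : Real.log v₃ ≤ Real.log Q + Real.log v₂ := by
      rw [← Real.log_mul (by linarith) (by linarith)]
      refine Real.log_le_log (by linarith) ?_
      rw [hv₃]; nlinarith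
    have e5 : 1 ≤ f (1 / v₂) - f (1 / v₃) := by
      rw [e3] at g3
      linarith
    have e6 : 1 / ((Q - 1) * (v₂ - vc)) ≤ (f (1 / v₂) - f (1 / v₃)) / (v₃ - v₂) := by
      rw [hd23]
      exact div_le_div_of_nonneg_right e5 (by positivity)
    have e7 : (f (1 / v₂) - f (1 / v₃)) / (v₃ - v₂) ≤ (f (1 / v₁) - f (1 / v₂)) / (v₂ - v₁) := by
      have a1 : (f (1 / v₂) - f (1 / v₃)) / (v₃ - v₂) = -((f (1 / v₃) - f (1 / v₂)) / (v₃ - v₂)) := by
        ring
      have a2 : (f (1 / v₁) - f (1 / v₂)) / (v₂ - v₁) = -((f (1 / v₂) - f (1 / v₁)) / (v₂ - v₁)) := by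
        ring
      rw [a1, a2]
      exact neg_le_neg hsl
    have e8 : 1 / (C * (v₂ - vc)) ≤ 1 / ((Q - 1) * (v₂ - vc)) := by
      refine one_div_le_one_div_of_le (by positivity) (mul_le_mul_of_nonneg_right ?_ hd2.le)
      rw [hC]; linarith
    exact e8.trans (e6.trans e7)
  · set v₀ := vc + (v₁ - vc) / Q with hv₀
    have hQ0 : 0 < Q := by linarith
    have h0 : vc < v₀ := by rw [hv₀]; have : 0 < (v₁ - vc) / Q := by positivity
                            linarith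
    have h01 : v₀ < v₁ := by
      rw [hv₀]
      have : (v₁ - vc) / Q < v₁ - vc := by rw [div_lt_iff₀ hQ0]; nlinarith
      linarith
    have hsl := hconv.slope_mono_adjacent (x := v₀) (y := v₁) (z := v₂) h0 h2 h01 h12
    have hd01 : v₁ - v₀ = (Q - 1) / Q * (v₁ - vc) := by
      rw [hv₀]; field_simp; ring
    have g0 := (abs_le.1 (hG v₀ h0)).2
    have g1 := (abs_le.1 (hG v₁ h1)).1
    have e3 : Real.log (v₀ - vc) = Real.log (v₁ - vc) - Real.log Q := by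
      rw [← Real.log_div hd1.ne' hQ0.ne']; congr 1; rw [hv₀]; ring
    have e4 : Real.log v₀ ≤ Real.log v₁ := Real.log_le_log (by linarith) h01.le
    have e5 : f (1 / v₀) - f (1 / v₁) ≤ 6 * C₀ + 2 := by
      rw [e3] at g0
      linarith
    have e6 : (f (1 / v₀) - f (1 / v₁)) / (v₁ - v₀) ≤ (6 * C₀ + 2) / ((Q - 1) / Q * (v₁ - vc)) := by
      rw [hd01]
      exact div_le_div_of_nonneg_right e5 (by positivity)
    have e7 : (f (1 / v₁) - f (1 / v₂)) / (v₂ - v₁) ≤ (f (1 / v₀) - f (1 / v₁)) / (v₁ - v₀) := by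
      have a1 : (f (1 / v₀) - f (1 / v₁)) / (v₁ - v₀) = -((f (1 / v₁) - f (1 / v₀)) / (v₁ - v₀)) := by
        ring
      have a2 : (f (1 / v₁) - f (1 / v₂)) / (v₂ - v₁) = -((f (1 / v₂) - f (1 / v₁)) / (v₂ - v₁)) := by
        ring
      rw [a1, a2]
      exact neg_le_neg hsl
    have e8 : (6 * C₀ + 2) / ((Q - 1) / Q * (v₁ - vc)) = (6 * C₀ + 2) * Q / (Q - 1) / (v₁ - vc) := by
      field_simp
    refine e7.trans (e6.trans ?_)
    rw [e8]
    exact div_le_div_of_nonneg_right (by rw [hC]; linarith) hd1.le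

end Pool.Agent.J4.H83.FV
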