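import Pool.Agent.J4.H83.FV.Lower

/-!
# Superadditivity of the logarithm of the partition function
-/

set_option autoImplicit false

open MeasureTheory Set

namespace Pool.Agent.J4.H83.FV

/-- the admissible configurations in a region -/
def conf (ι : Type*) (Λ : Set ℂ) : Set (ι → ℂ) :=
  {x | (∀ i, x i ∈ Λ) ∧ ∀ i j, i ≠ j → 1 ≤ ‖x i - x j‖}

lemma conf_meas {ι : Type*} [Fintype ι] {Λ : Set ℂ} (hΛ : MeasurableSet Λ) :
    MeasurableSet (conf ι Λ) := by
  have h : conf ι Λ = (⋂ i, {x : ι → ℂ | x i ∈ Λ}) ∩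
      ⋂ i, ⋂ j, ⋂ _ : i ≠ j, {x : ι → ℂ | 1 ≤ ‖x i - x j‖} := by
    ext x; simp [conf]
  rw [h]
  have : Countable ι := Finite.to_countable
  refine (MeasurableSet.iInter fun i => (measurable_pi_apply i) hΛ).inter
    (MeasurableSet.iInter fun i => MeasurableSet.iInter fun j => MeasurableSet.iInter fun _ =>
      measurableSet_le measurable_const ?_)
  exact ((measurable_pi_apply i).sub (measurable_pi_apply j)).norm

/-- the partition function -/
noncomputable def zz (Λ : Set ℂ) (N : ℕ) : ENNReal := volume (conf (Fin N) Λ) / N.factorial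

lemma mp_comp {ι κ : Type*} [Fintype ι] [Fintype κ] (e : ι ≃ κ) :
    MeasurePreserving (fun (x : κ → ℂ) (i : ι) => x (e i)) volume volume :=
  (volume_measurePreserving_piCongrLeft (fun _ : κ => ℂ) e).symm

lemma mp_split {ι κ : Type*} [Fintype ι] [Fintype κ] :
    MeasurePreserving (fun x : ι ⊕ κ → ℂ => ((fun i => x (Sum.inl i)), (fun j => x (Sum.inr j))))
      volume (volume.prod volume) :=
  volume_measurePreserving_sumPiEquivProdPi fun _ : ι ⊕ κ => ℂ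

/-- configurations with the set `S` of indices in the first region -/
def XS {n : ℕ} (Λ₁ Λ₂ : Set ℂ) (S : Finset (Fin n)) : Set (Fin n → ℂ) :=
  {x | (∀ i ∈ S, x i ∈ Λ₁) ∧ (∀ i, i ∉ S → x i ∈ Λ₂) ∧ ∀ i j, i ≠ j → 1 ≤ ‖x i - x j‖}

lemma XS_spec {N₁ N₂ : ℕ} {Λ₁ Λ₂ : Set ℂ} (hΛ₁ : MeasurableSet Λ₁) (hΛ₂ : MeasurableSet Λ₂)
    (hsep : ∀ p ∈ Λ₁, ∀ q ∈ Λ₂, 1 ≤ ‖p - q‖) {S : Finset (Fin (N₁ + N₂))} (hS : S.card = N₁) :
    MeasurableSet (XS Λ₁ Λ₂ S) ∧
      volume (XS Λ₁ Λ₂ S) = volume (conf (Fin N₁) Λ₁) * volume (conf (Fin N₂) Λ₂) := by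
  classical
  have c1 : Fintype.card {x // x ∈ S} = N₁ := by rw [Fintype.card_coe, hS]
  have c2 : Fintype.card {x // x ∉ S} = N₂ := by
    rw [Fintype.card_subtype_compl, Fintype.card_fin, c1]; omega
  let e : Fin N₁ ⊕ Fin N₂ ≃ Fin (N₁ + N₂) :=
    (Equiv.sumCongr (Fintype.equivFinOfCardEq c1).symm (Fintype.equivFinOfCardEq c2).symm).trans
      (Equiv.sumCompl (· ∈ S))
  have he1 : ∀ a, e (Sum.inl a) ∈ S := fun a => ((Fintype.equivFinOfCardEq c1).symm a).2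
  have he2 : ∀ a, e (Sum.inr a) ∉ S := fun a => ((Fintype.equivFinOfCardEq c2).symm a).2
  have hmp := mp_split.comp (mp_comp e)
  set φ : (Fin (N₁ + N₂) → ℂ) → (Fin N₁ → ℂ) × (Fin N₂ → ℂ) :=
    (fun x : Fin N₁ ⊕ Fin N₂ → ℂ => ((fun i => x (Sum.inl i)), (fun j => x (Sum.inr j)))) ∘
      (fun (x : Fin (N₁ + N₂) → ℂ) (i : Fin N₁ ⊕ Fin N₂) => x (e i)) with hφ
  have hpre : XS Λ₁ Λ₂ S = φ ⁻¹' (conf (Fin N₁) Λ₁ ×ˢ conf (Fin N₂) Λ₂) := by
    ext x
    simp only [XS, conf, hφ, mem_setOf_eq, mem_preimage, mem_prod, Function.comp_apply]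
    constructor
    · rintro ⟨h1, h2, h3⟩
      exact ⟨⟨fun i => h1 _ (he1 i), fun i j hij => h3 _ _ fun hc => hij (by simpa using hc)⟩,
        fun i => h2 _ (he2 i), fun i j hij => h3 _ _ fun hc => hij (by simpa using hc)⟩
    · rintro ⟨⟨h1, h2⟩, h3, h4⟩
      refine ⟨fun i hi => ?_, fun i hi => ?_, fun i j hij => ?_⟩
      · obtain ⟨a, rfl⟩ := e.surjective i
        rcases a with a | a
        · exact h1 a
        · exact absurd hi (he2 a)
      · obtain ⟨a, rfl⟩ := e.surjective i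
        rcases a with a | a
        · exact absurd (he1 a) hi
        · exact h3 a
      · obtain ⟨a, rfl⟩ := e.surjective i
        obtain ⟨b, rfl⟩ := e.surjective j
        rcases a with a | a <;> rcases b with b | b
        · exact h2 a b fun hc => hij (by rw [hc])
        · exact hsep _ (h1 a) _ (h3 b)
        · rw [norm_sub_rev]; exact hsep _ (h1 b) _ (h3 a)
        · exact h4 a b fun hc => hij (by rw [hc])
  have hm : MeasurableSet (conf (Fin N₁) Λ₁ ×ˢ conf (Fin N₂) Λ₂) :=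
    (conf_meas hΛ₁).prod (conf_meas hΛ₂)
  rw [hpre]
  exact ⟨hmp.measurable hm, by rw [hmp.measure_preimage hm.nullMeasurableSet, Measure.prod_prod]⟩

theorem zz_mul {Λ₁ Λ₂ : Set ℂ} (hΛ₁ : MeasurableSet Λ₁) (hΛ₂ : MeasurableSet Λ₂)
    (hsep : ∀ p ∈ Λ₁, ∀ q ∈ Λ₂, 1 ≤ ‖p - q‖) (N₁ N₂ : ℕ) :
    zz Λ₁ N₁ * zz Λ₂ N₂ ≤ zz (Λ₁ ∪ Λ₂) (N₁ + N₂) := by
  classical
  have hdisj : ∀ p ∈ Λ₁, p ∉ Λ₂ := by
    intro p h1 h2
    have := hsep p h1 p h2
    rw [sub_self, norm_zero] at this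
    linarith
  have hU : volume (⋃ S ∈ Finset.powersetCard N₁ (Finset.univ : Finset (Fin (N₁ + N₂))), XS Λ₁ Λ₂ S) =
      ∑ S ∈ Finset.powersetCard N₁ (Finset.univ : Finset (Fin (N₁ + N₂))), volume (XS Λ₁ Λ₂ S) := by
    refine measure_biUnion_finset ?_ ?_
    · intro S hS S' hS' hne
      rw [Function.onFun, Set.disjoint_left]
      rintro x ⟨h1, h2, -⟩ ⟨h3, h4, -⟩
      apply hne
      ext i
      constructor
      · intro hi
        by_contra hc
        exact hdisj _ (h1 i hi) (h4 i hc)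
      · intro hi
        by_contra hc
        exact hdisj _ (h3 i hi) (h2 i hc)
    · intro S hS
      exact (XS_spec hΛ₁ hΛ₂ hsep (Finset.mem_powersetCard.1 hS).2).1
  have hsub : (⋃ S ∈ Finset.powersetCard N₁ (Finset.univ : Finset (Fin (N₁ + N₂))), XS Λ₁ Λ₂ S) ⊆
      conf (Fin (N₁ + N₂)) (Λ₁ ∪ Λ₂) := by
    refine iUnion₂_subset fun S _ => ?_
    rintro x ⟨h1, h2, h3⟩
    refine ⟨fun i => ?_, h3⟩
    by_cases hi : i ∈ S
    · exact Or.inl (h1 i hi)
    · exact Or.inr (h2 i hi)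
  have h1 := measure_mono (μ := volume) hsub
  rw [hU, Finset.sum_congr rfl fun S hS =>
    (XS_spec hΛ₁ hΛ₂ hsep (Finset.mem_powersetCard.1 hS).2).2, Finset.sum_const,
    Finset.card_powersetCard, Finset.card_univ, Fintype.card_fin, nsmul_eq_mul] at h1
  unfold zz
  have hf1 : ((N₁.factorial : ℕ) : ENNReal) ≠ 0 := by exact_mod_cast N₁.factorial_ne_zero
  have hf2 : ((N₂.factorial : ℕ) : ENNReal) ≠ 0 := by exact_mod_cast N₂.factorial_ne_zero
  have hf3 : (((N₁ + N₂).factorial : ℕ) : ENNReal) ≠ 0 := by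
    exact_mod_cast (N₁ + N₂).factorial_ne_zero
  have hch : (((N₁ + N₂).choose N₁ : ℕ) : ENNReal) * ((N₁.factorial : ℕ) * (N₂.factorial : ℕ)) =
      ((N₁ + N₂).factorial : ℕ) := by
    have := Nat.choose_mul_factorial_mul_factorial (Nat.le_add_right N₁ N₂)
    rw [Nat.add_sub_cancel_left] at this
    rw [← this]
    push_cast
    ring
  rw [ENNReal.le_div_iff_mul_le (Or.inl hf3) (Or.inl (ENNReal.natCast_ne_top _))]
  refine le_trans (le_of_eq ?_) h1
  rw [← hch, ENNReal.div_eq_inv_mul, ENNReal.div_eq_inv_mul]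
  have a1 : ((N₁.factorial : ℕ) : ENNReal)⁻¹ * (N₁.factorial : ℕ) = 1 :=
    ENNReal.inv_mul_cancel hf1 (ENNReal.natCast_ne_top _)
  have a2 : ((N₂.factorial : ℕ) : ENNReal)⁻¹ * (N₂.factorial : ℕ) = 1 :=
    ENNReal.inv_mul_cancel hf2 (ENNReal.natCast_ne_top _)
  calc _ = (((N₁.factorial : ℕ) : ENNReal)⁻¹ * (N₁.factorial : ℕ)) *
        (((N₂.factorial : ℕ) : ENNReal)⁻¹ * (N₂.factorial : ℕ)) *
        ((((N₁ + N₂).choose N₁ : ℕ) : ENNReal) *
          (volume (conf (Fin N₁) Λ₁) * volume (conf (Fin N₂) Λ₂))) := by ring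
    _ = _ := by rw [a1, a2, one_mul, one_mul]

lemma zz_mono {Λ Λ' : Set ℂ} (h : Λ ⊆ Λ') (N : ℕ) : zz Λ N ≤ zz Λ' N := by
  unfold zz
  refine ENNReal.div_le_div_right (measure_mono ?_) _
  rintro x ⟨h1, h2⟩
  exact ⟨fun i => h (h1 i), h2⟩

lemma zz_trans (Λ : Set ℂ) (hΛ : MeasurableSet Λ) (c : ℂ) (N : ℕ) :
    zz ((fun z => z - c) ⁻¹' Λ) N = zz Λ N := by
  unfold zz
  congr 1
  have hmp : MeasurePreserving (fun (x : Fin N → ℂ) i => x i - c) volume volume :=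
    volume_preserving_pi fun _ => measurePreserving_sub_right volume c
  rw [← hmp.measure_preimage (conf_meas hΛ).nullMeasurableSet]
  congr 1
  ext x
  simp only [conf, mem_setOf_eq, mem_preimage, sub_sub_sub_cancel_right]

theorem zz_prod {κ : Type*} (s : Finset κ) (Λ : κ → Set ℂ) (n : κ → ℕ)
    (hΛ : ∀ k ∈ s, MeasurableSet (Λ k))
    (hsep : ∀ k ∈ s, ∀ l ∈ s, k ≠ l → ∀ p ∈ Λ k, ∀ q ∈ Λ l, 1 ≤ ‖p - q‖) :
    ∏ k ∈ s, zz (Λ k) (n k) ≤ zz (⋃ k ∈ s, Λ k) (∑ k ∈ s, n k) := by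
  classical
  induction s using Finset.induction_on with
  | empty =>
    simp only [Finset.prod_empty, Finset.sum_empty]
    unfold zz
    have : conf (Fin 0) (⋃ k ∈ (∅ : Finset κ), Λ k) = univ := by
      ext x
      simp only [conf, mem_setOf_eq, mem_univ, iff_true]
      exact ⟨fun i => i.elim0, fun i => i.elim0⟩
    rw [this, volume_pi, Measure.pi_univ]
    simp
  | insert a s ha ih =>
    rw [Finset.prod_insert ha, Finset.sum_insert ha, Finset.set_biUnion_insert]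
    have ih' := ih (fun k hk => hΛ k (Finset.mem_insert_of_mem hk))
      (fun k hk l hl => hsep k (Finset.mem_insert_of_mem hk) l (Finset.mem_insert_of_mem hl))
    refine le_trans (mul_le_mul_right ih' _) ?_
    refine zz_mul (hΛ a (Finset.mem_insert_self _ _))
      (Finset.measurableSet_biUnion _ fun k hk => hΛ k (Finset.mem_insert_of_mem hk)) ?_ _ _
    intro p hp q hq
    rw [mem_iUnion₂] at hq
    obtain ⟨k, hk, hq⟩ := hq
    exact hsep a (Finset.mem_insert_self _ _) k (Finset.mem_insert_of_mem hk)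
      (fun h => ha (h ▸ hk)) p hp q hq

/-- a grid of boxes -/
theorem zz_grid {l K : ℝ} (hl : 0 ≤ l) (m : ℕ) (hK : m * (l + 1) ≤ K) (n : Fin m × Fin m → ℕ) :
    ∏ k, zz (box 0 l) (n k) ≤ zz (box 0 K) (∑ k, n k) := by
  classical
  set c : Fin m × Fin m → ℂ := fun k => ⟨(k.1 : ℕ) * (l + 1), (k.2 : ℕ) * (l + 1)⟩ with hc
  have h1 : ∀ k, zz (box 0 l) (n k) = zz ((fun z => z - c k) ⁻¹' box 0 l) (n k) := fun k =>
    (zz_trans _ (box_meas _ _) _ _).symm
  simp_rw [h1]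
  have hmem : ∀ k z, z ∈ (fun z => z - c k) ⁻¹' box 0 l ↔
      (((k.1 : ℕ) : ℝ) * (l + 1) ≤ z.re ∧ z.re ≤ ((k.1 : ℕ) : ℝ) * (l + 1) + l) ∧
      (((k.2 : ℕ) : ℝ) * (l + 1) ≤ z.im ∧ z.im ≤ ((k.2 : ℕ) : ℝ) * (l + 1) + l) := by
    intro k z
    simp only [hc, box, mem_preimage, mem_setOf_eq, mem_Icc, Complex.sub_re, Complex.sub_im]
    constructor
    · rintro ⟨⟨a1, a2⟩, a3, a4⟩
      exact ⟨⟨by linarith, by linarith⟩, by linarith, by linarith⟩
    · rintro ⟨⟨a1, a2⟩, a3, a4⟩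
      exact ⟨⟨by linarith, by linarith⟩, by linarith, by linarith⟩
  have aux : ∀ a b : ℕ, a < b → ∀ x y : ℝ, x ≤ (a : ℝ) * (l + 1) + l → (b : ℝ) * (l + 1) ≤ y →
      1 ≤ y - x := by
    intro a b hab x y hx hy
    have : (a : ℝ) + 1 ≤ b := by exact_mod_cast hab
    nlinarith
  refine (zz_prod Finset.univ _ n (fun k _ => (measurable_sub_const _) (box_meas _ _)) ?_).trans
    (zz_mono ?_ _)
  · intro k _ k' _ hkk p hp q hq
    rw [hmem] at hp hq
    obtain ⟨⟨p1, p2⟩, p3, p4⟩ := hp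
    obtain ⟨⟨q1, q2⟩, q3, q4⟩ := hq
    have hre := Complex.abs_re_le_norm (p - q)
    have him := Complex.abs_im_le_norm (p - q)
    rw [Complex.sub_re] at hre
    rw [Complex.sub_im] at him
    by_cases h : k.1 = k'.1
    · have h2 : (k.2 : ℕ) ≠ k'.2 := by
        intro hc2
        exact hkk (Prod.ext h (Fin.ext hc2))
      rcases lt_or_gt_of_ne h2 with h3 | h3
      · have := aux _ _ h3 p.im q.im p4 q3
        rw [abs_sub_comm] at him
        exact this.trans ((le_abs_self _).trans him)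
      · have := aux _ _ h3 q.im p.im q4 p3
        exact this.trans ((le_abs_self _).trans him)
    · have h2 : (k.1 : ℕ) ≠ k'.1 := fun hc2 => h (Fin.ext hc2)
      rcases lt_or_gt_of_ne h2 with h3 | h3
      · have := aux _ _ h3 p.re q.re p2 q1
        rw [abs_sub_comm] at hre
        exact this.trans ((le_abs_self _).trans hre)
      · have := aux _ _ h3 q.re p.re q2 p1
        exact this.trans ((le_abs_self _).trans hre)
  · refine iUnion₂_subset fun k _ => ?_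
    intro z hz
    rw [hmem] at hz
    obtain ⟨⟨p1, p2⟩, p3, p4⟩ := hz
    have hb : ∀ a : Fin m, ((a : ℕ) : ℝ) * (l + 1) + l ≤ K := by
      intro a
      have : ((a : ℕ) : ℝ) + 1 ≤ m := by exact_mod_cast a.2
      nlinarith
    have hb0 : ∀ a : Fin m, 0 ≤ ((a : ℕ) : ℝ) * (l + 1) := fun a => by positivity
    exact ⟨⟨(hb0 _).trans p1, p2.trans (hb _)⟩, (hb0 _).trans p3, p4.trans (hb _)⟩

end Pool.Agent.J4.H83.FV
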