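import Pool.Agent.J4.H83.FV.Ker

/-!
# The upper bound for the volume of the configuration space
-/

set_option autoImplicit false

open MeasureTheory Set

namespace Pool.Agent.J4.H83.FV

/-- the admissible configurations of `N` points in the box, minimal distance one -/
def A (N : ℕ) (L : ℝ) : Set (Fin N → ℂ) :=
  {x | (∀ i, x i ∈ box 0 L) ∧ ∀ i j, i ≠ j → 1 ≤ ‖x i - x j‖}

/-- the small cells of side `1/2` -/
def Q (a : ℕ × ℕ) : Set ℂ :=
  {z | ((a.1 : ℝ) ≤ 2 * z.re ∧ 2 * z.re ≤ a.1 + 1) ∧ ((a.2 : ℝ) ≤ 2 * z.im ∧ 2 * z.im ≤ a.2 + 1)}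

lemma Q_eq (a : ℕ × ℕ) : Q a = Complex.measurableEquivRealProd ⁻¹'
    (Icc ((a.1 : ℝ) / 2) ((a.1 + 1) / 2) ×ˢ Icc ((a.2 : ℝ) / 2) ((a.2 + 1) / 2)) := by
  ext z
  simp only [Q, mem_setOf_eq, mem_preimage, Complex.measurableEquivRealProd_apply, mem_prod, mem_Icc]
  constructor
  · rintro ⟨⟨h1, h2⟩, h3, h4⟩
    refine ⟨⟨by linarith, by linarith⟩, by linarith, by linarith⟩
  · rintro ⟨⟨h1, h2⟩, h3, h4⟩
    refine ⟨⟨by linarith, by linarith⟩, by linarith, by linarith⟩

lemma Q_meas (a : ℕ × ℕ) : MeasurableSet (Q a) := by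
  rw [Q_eq]
  exact Complex.measurableEquivRealProd.measurable (measurableSet_Icc.prod measurableSet_Icc)

lemma vol_Q (a : ℕ × ℕ) : volume (Q a) ≤ 1 := by
  rw [Q_eq, Complex.volume_preserving_equiv_real_prod.measure_preimage_equiv,
    Measure.volume_eq_prod, Measure.prod_prod, Real.volume_Icc, Real.volume_Icc,
    ← ENNReal.ofReal_mul (by linarith)]
  rw [ENNReal.ofReal_le_one]
  nlinarith

variable {N : ℕ}

/-- the kernels of a structure -/
noncomputable def ff (δ : ℝ) (c : Fin N → ℕ × ℕ) (s : Fin N → Option (Fin N × Fin N)) (i : Fin N)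
    (x : Fin N → ℂ) : ENNReal :=
  match s i with
  | none => (Q (c i)).indicator (fun _ => 1) (x i)
  | some jk => kern δ (x jk.1) (x jk.2) (x i)

lemma kern_meas (δ : ℝ) (j k i : Fin N) :
    Measurable fun x : Fin N → ℂ => kern δ (x j) (x k) (x i) := by
  have m1 : Measurable fun x : Fin N → ℂ => ‖x j - x i‖ :=
    ((measurable_pi_apply j).sub (measurable_pi_apply i)).norm
  have m2 : Measurable fun x : Fin N → ℂ => ‖x k - x i‖ :=
    ((measurable_pi_apply k).sub (measurable_pi_apply i)).norm
  have m3 : Measurable fun x : Fin N → ℂ => (x j - x i).re :=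
    Complex.measurable_re.comp ((measurable_pi_apply j).sub (measurable_pi_apply i))
  have m4 : Measurable fun x : Fin N → ℂ => (x j - x i).im :=
    Complex.measurable_im.comp ((measurable_pi_apply j).sub (measurable_pi_apply i))
  have m5 : Measurable fun x : Fin N → ℂ => (x k - x i).re :=
    Complex.measurable_re.comp ((measurable_pi_apply k).sub (measurable_pi_apply i))
  have m6 : Measurable fun x : Fin N → ℂ => (x k - x i).im :=
    Complex.measurable_im.comp ((measurable_pi_apply k).sub (measurable_pi_apply i))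
  unfold kern gap
  refine Measurable.ite ?_ ?_ measurable_const
  · unfold Good
    exact ((measurableSet_le measurable_const m1).inter (measurableSet_le m1 measurable_const)).inter
      (((measurableSet_le measurable_const m2).inter (measurableSet_le m2 measurable_const)).inter
      (((measurableSet_le m3 measurable_const).inter (measurableSet_le m4 measurable_const)).inter
      ((measurableSet_le measurable_const m5).inter (measurableSet_le m6 measurable_const))))
  · exact ENNReal.measurable_ofReal.comp (Real.measurable_exp.comp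
      ((((m1.sub_const 1).add (m2.sub_const 1)).neg).div_const δ))

lemma ff_meas (δ : ℝ) (c : Fin N → ℕ × ℕ) (s : Fin N → Option (Fin N × Fin N)) (i : Fin N) :
    Measurable (ff δ c s i) := by
  unfold ff
  rcases s i with _ | jk
  · exact (measurable_const.indicator (Q_meas _)).comp (measurable_pi_apply i)
  · exact kern_meas δ _ _ _

/-- an acyclic structure -/
def Acyc (s : Fin N → Option (Fin N × Fin N)) : Prop :=
  ∃ r : Fin N → ℝ, ∀ i j k, s i = some (j, k) → r j < r i ∧ r k < r i

/-- the number of the points without structure -/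
def nn (s : Fin N → Option (Fin N × Fin N)) : ℕ := (Finset.univ.filter fun i => s i = none).card

theorem int_ff {δ : ℝ} (hδ : 0 < δ) (c : Fin N → ℕ × ℕ)
    (s : Fin N → Option (Fin N × Fin N)) (hs : Acyc s) :
    ∫⁻ x, ∏ i, ff δ c s i x ≤ ENNReal.ofReal (10000 ^ N * δ ^ (2 * N) * (1 / δ) ^ (2 * nn s)) := by
  obtain ⟨r, hr⟩ := hs
  have h1 : ∫⁻ x, ∏ i, ff δ c s i x ≤
      ∏ i, (if s i = none then (1 : ENNReal) else ENNReal.ofReal (10000 * δ ^ 2)) := by
    rw [volume_pi]
    refine prod_kernels volume r (ff δ c s) (ff_meas δ c s) ?_ _ ?_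
    · intro i x y hxy
      have hi := hxy i (Or.inl rfl)
      unfold ff
      rcases hsi : s i with _ | ⟨j, k⟩
      · simp only [hi]
      · obtain ⟨h2, h3⟩ := hr i j k hsi
        simp only [hi, hxy j (Or.inr h2), hxy k (Or.inr h3)]
    · intro i x
      unfold ff
      rcases hsi : s i with _ | ⟨j, k⟩
      · simp only [if_true, Function.update_self]
        rw [lintegral_indicator (Q_meas _), setLIntegral_const, one_mul]
        exact vol_Q _
      · obtain ⟨h2, h3⟩ := hr i j k hsi
        have hj : j ≠ i := by rintro rfl; exact lt_irrefl _ h2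
        have hk : k ≠ i := by rintro rfl; exact lt_irrefl _ h3
        simp only [Function.update_self, Function.update_of_ne hj, Function.update_of_ne hk,
          reduceCtorEq, if_false]
        exact kern_int hδ _ _
  refine h1.trans ?_
  have h2 : ∏ i, (if s i = none then (1 : ENNReal) else ENNReal.ofReal (10000 * δ ^ 2)) =
      ENNReal.ofReal (∏ i, (if s i = none then (1 : ℝ) else 10000 * δ ^ 2)) := by
    rw [ENNReal.ofReal_prod_of_nonneg]
    · refine Finset.prod_congr rfl fun i _ => ?_
      split_ifs <;> simp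
    · intro i _
      split_ifs <;> positivity
  rw [h2]
  refine ENNReal.ofReal_le_ofReal ?_
  calc ∏ i, (if s i = none then (1 : ℝ) else 10000 * δ ^ 2)
      ≤ ∏ i, ((10000 * δ ^ 2) * (if s i = none then (1 / δ) ^ 2 else 1)) := by
        refine Finset.prod_le_prod (fun i _ => by split_ifs <;> positivity) fun i _ => ?_
        split_ifs
        · have : 10000 * δ ^ 2 * (1 / δ) ^ 2 = 10000 := by field_simp
          rw [this]; norm_num
        · rw [mul_one]
    _ = (10000 * δ ^ 2) ^ N * ((1 / δ) ^ 2) ^ (nn s) := by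
        rw [Finset.prod_mul_distrib, Finset.prod_const, Finset.card_univ, Fintype.card_fin,
          Finset.prod_ite, Finset.prod_const, Finset.prod_const_one, mul_one]
        rfl
    _ = _ := by rw [mul_pow, ← pow_mul, ← pow_mul]

end Pool.Agent.J4.H83.FV
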