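import Pool.Agent.J4.H83.FV.Upper

/-!
# The upper bound for the volume of the configuration space: union bound
-/

set_option autoImplicit false

open MeasureTheory Set

namespace Pool.Agent.J4.H83.FV

noncomputable def cellN (z : ℂ) : ℕ × ℕ := (⌊2 * z.re⌋₊, ⌊2 * z.im⌋₊)

lemma mem_Q {L : ℝ} {z : ℂ} (hz : z ∈ box 0 L) : z ∈ Q (cellN z) := by
  obtain ⟨⟨h1, -⟩, h3, -⟩ := hz
  refine ⟨⟨Nat.floor_le (by linarith), (Nat.lt_floor_add_one _).le⟩,
    Nat.floor_le (by linarith), (Nat.lt_floor_add_one _).le⟩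

lemma cell_lt {L : ℝ} {z : ℂ} (hz : z ∈ box 0 L) :
    (cellN z).1 < ⌊2 * L⌋₊ + 1 ∧ (cellN z).2 < ⌊2 * L⌋₊ + 1 := by
  obtain ⟨⟨h1, h2⟩, h3, h4⟩ := hz
  exact ⟨Nat.lt_succ_of_le (Nat.floor_mono (by linarith)),
    Nat.lt_succ_of_le (Nat.floor_mono (by linarith))⟩

lemma cell_inj {L : ℝ} {z w : ℂ} (hz : z ∈ box 0 L) (hw : w ∈ box 0 L)
    (h : cellN z = cellN w) : ‖z - w‖ < 1 := by
  have h1 := mem_Q hz
  have h2 := mem_Q hw
  rw [h] at h1
  obtain ⟨⟨a1, a2⟩, a3, a4⟩ := h1
  obtain ⟨⟨b1, b2⟩, b3, b4⟩ := h2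
  have h3 := nsq (z - w)
  rw [Complex.sub_re, Complex.sub_im] at h3
  have h4 : ‖z - w‖ ^ 2 < 1 := by
    have c1 : (z.re - w.re) ^ 2 ≤ 1 / 4 := by nlinarith
    have c2 : (z.im - w.im) ^ 2 ≤ 1 / 4 := by nlinarith
    linarith
  nlinarith [norm_nonneg (z - w)]

lemma floor_near {a b : ℝ} (ha : 0 ≤ a) (hb : 0 ≤ b) (h : |a - b| ≤ 4) :
    ((⌊a⌋₊ : ℤ) - ⌊b⌋₊) ∈ Finset.Icc (-5 : ℤ) 5 := by
  have h1 := Nat.floor_le ha
  have h2 := Nat.lt_floor_add_one a
  have h3 := Nat.floor_le hb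
  have h4 := Nat.lt_floor_add_one b
  have h5 := abs_le.1 h
  rw [Finset.mem_Icc]
  constructor
  · have : (-5 : ℝ) ≤ (⌊a⌋₊ : ℝ) - ⌊b⌋₊ := by linarith [h5.1]
    exact_mod_cast this
  · have : (⌊a⌋₊ : ℝ) - ⌊b⌋₊ ≤ 5 := by linarith [h5.2]
    exact_mod_cast this

variable {N : ℕ}

/-- the indices with neighbouring cells -/
noncomputable def Nb {m : ℕ} (e : Fin N ↪ Fin m × Fin m) (i : Fin N) : Finset (Fin N) :=
  Finset.univ.filter fun j => (((e j).1 : ℕ) : ℤ) - ((e i).1 : ℕ) ∈ Finset.Icc (-5 : ℤ) 5 ∧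
    (((e j).2 : ℕ) : ℤ) - ((e i).2 : ℕ) ∈ Finset.Icc (-5 : ℤ) 5

lemma card_Nb {m : ℕ} (e : Fin N ↪ Fin m × Fin m) (i : Fin N) : (Nb e i).card ≤ 121 := by
  have h : (Nb e i).card ≤ (Finset.Icc (-5 : ℤ) 5 ×ˢ Finset.Icc (-5 : ℤ) 5).card := by
    refine Finset.card_le_card_of_injOn (fun j => ((((e j).1 : ℕ) : ℤ) - ((e i).1 : ℕ),
      (((e j).2 : ℕ) : ℤ) - ((e i).2 : ℕ))) ?_ ?_
    · intro j hj
      simp only [Nb, Finset.coe_filter, Finset.mem_univ, true_and, mem_setOf_eq] at hj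
      exact Finset.mem_coe.2 (Finset.mem_product.2 hj)
    · intro j _ k _ hjk
      simp only [Prod.mk.injEq] at hjk
      apply e.injective
      ext
      · have := hjk.1; omega
      · have := hjk.2; omega
  refine h.trans (le_of_eq ?_)
  rw [Finset.card_product, Int.card_Icc]
  rfl

open Classical in
/-- the structures over a placement in cells -/
noncomputable def Str {m : ℕ} (B : ℝ) (e : Fin N ↪ Fin m × Fin m) :
    Finset (Fin N → Option (Fin N × Fin N)) :=
  (Fintype.piFinset fun i => insert none ((Nb e i ×ˢ Nb e i).image some)).filter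
    fun s => Acyc s ∧ (nn s : ℝ) ≤ B

lemma card_Str {m : ℕ} (B : ℝ) (e : Fin N ↪ Fin m × Fin m) : (Str B e).card ≤ 14642 ^ N := by
  classical
  refine (Finset.card_filter_le _ _).trans ?_
  rw [Fintype.card_piFinset]
  calc ∏ i, (insert none ((Nb e i ×ˢ Nb e i).image some)).card ≤ ∏ _i : Fin N, 14642 := by
        refine Finset.prod_le_prod' fun i _ => ?_
        refine (Finset.card_insert_le _ _).trans ?_
        have h1 := Finset.card_image_le (s := Nb e i ×ˢ Nb e i) (f := some)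
        rw [Finset.card_product] at h1
        have h2 := card_Nb e i
        have h3 : (Nb e i).card * (Nb e i).card ≤ 121 * 121 := Nat.mul_le_mul h2 h2
        omega
    _ = 14642 ^ N := by rw [Finset.prod_const, Finset.card_univ, Fintype.card_fin]

/-- cells of a placement -/
def cO {m : ℕ} (e : Fin N ↪ Fin m × Fin m) (i : Fin N) : ℕ × ℕ := ((e i).1, (e i).2)

/-- every admissible configuration is covered by one of the products of kernels -/
theorem cover : ∃ ε₁ : ℝ, 0 < ε₁ ∧ ∃ C : ℝ, 0 < C ∧ ∀ (N : ℕ) (L δ : ℝ), 0 ≤ L → 0 < δ →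
    (L + 2 * R) ^ 2 - √3 / 2 * N ≤ δ * L ^ 2 → ∀ x ∈ A N L,
      ∃ e : Fin N ↪ Fin (⌊2 * L⌋₊ + 1) × Fin (⌊2 * L⌋₊ + 1), ∃ s ∈ Str (δ * L ^ 2 / ε₁) e,
        1 ≤ ENNReal.ofReal (Real.exp (C * L ^ 2)) * ∏ i, ff δ (cO e) s i x := by
  obtain ⟨ε₀, hε, C, hC, hst⟩ := structure_thm
  set ε₁ := min ε₀ (1 / C) with hε₁
  have hε₁p : 0 < ε₁ := lt_min hε (by positivity)
  refine ⟨ε₁, hε₁p, 2 * C, by positivity, fun N L δ hL hδ hsum x hx => ?_⟩
  classical
  obtain ⟨hbox, hdist⟩ := hx
  have hS := sum_ex x hL hbox hdist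
  have hex := hst N x hdist
  have hSle : ∑ i, ex x i ≤ δ * L ^ 2 := hS.trans hsum
  -- the placement
  let e : Fin N ↪ Fin (⌊2 * L⌋₊ + 1) × Fin (⌊2 * L⌋₊ + 1) :=
    ⟨fun i => (⟨(cellN (x i)).1, (cell_lt (hbox i)).1⟩, ⟨(cellN (x i)).2, (cell_lt (hbox i)).2⟩), by
      intro i j hij
      by_contra hne
      simp only [Prod.mk.injEq, Fin.mk.injEq] at hij
      have h1 := cell_inj (hbox i) (hbox j) (Prod.ext hij.1 hij.2)
      have h2 := hdist i j hne
      linarith⟩
  have he : ∀ i, cO e i = cellN (x i) := fun i => rfl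
  -- the structure
  have hgood : ∀ i, ex x i < ε₁ → ∃ jk : Fin N × Fin N, Good (x jk.1) (x jk.2) (x i) ∧
      gap (x jk.1) (x jk.2) (x i) ≤ 2 * C * ex x i := by
    intro i hi
    obtain ⟨j, k, hj, hk, h1, h2, h3, h4, h5, h6⟩ := (hex i).2 (hi.trans_le (min_le_left _ _))
    have h7 : C * ex x i ≤ 1 := by
      have : ex x i ≤ 1 / C := hi.le.trans (min_le_right _ _)
      calc C * ex x i ≤ C * (1 / C) := mul_le_mul_of_nonneg_left this hC.le
        _ = 1 := by field_simp
    refine ⟨(j, k), ⟨⟨hdist j i hj, by linarith⟩, ⟨hdist k i hk, by linarith⟩, ⟨h3, h4⟩, h5, h6⟩, ?_⟩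
    unfold gap
    simp only
    linarith
  choose! jk hjk using hgood
  set s : Fin N → Option (Fin N × Fin N) := fun i => if ex x i < ε₁ then some (jk i) else none with hs
  have hsi : ∀ i, ex x i < ε₁ → s i = some (jk i) := fun i hi => by rw [hs]; simp [hi]
  have hsn : ∀ i, ¬ ex x i < ε₁ → s i = none := fun i hi => by rw [hs]; simp [hi]
  have hnear : ∀ i j : Fin N, ‖x j - x i‖ ≤ 2 → j ∈ Nb e i := by
    intro i j hij
    obtain ⟨⟨a1, a2⟩, a3, a4⟩ := hbox i
    obtain ⟨⟨b1, b2⟩, b3, b4⟩ := hbox j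
    have h1 := (Complex.abs_re_le_norm (x j - x i)).trans hij
    have h2 := (Complex.abs_im_le_norm (x j - x i)).trans hij
    rw [Complex.sub_re] at h1
    rw [Complex.sub_im] at h2
    rw [Nb, Finset.mem_filter]
    refine ⟨Finset.mem_univ _, ?_, ?_⟩
    · refine floor_near (by linarith) (by linarith) ?_
      rw [← mul_sub, abs_mul, abs_two]; linarith
    · refine floor_near (by linarith) (by linarith) ?_
      rw [← mul_sub, abs_mul, abs_two]; linarith
  refine ⟨e, s, ?_, ?_⟩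
  · rw [Str, Finset.mem_filter, Fintype.mem_piFinset]
    refine ⟨fun i => ?_, ⟨fun i => (x i).im, ?_⟩, ?_⟩
    · by_cases hi : ex x i < ε₁
      · rw [hsi i hi]
        refine Finset.mem_insert_of_mem (Finset.mem_image_of_mem _ ?_)
        obtain ⟨⟨⟨-, g1⟩, ⟨-, g2⟩, -⟩, -⟩ := hjk i hi
        exact Finset.mem_product.2 ⟨hnear i _ g1, hnear i _ g2⟩
      · rw [hsn i hi]
        exact Finset.mem_insert_self _ _
    · intro i j k hijk
      by_cases hi : ex x i < ε₁
      · rw [hsi i hi] at hijk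
        have hjk' : jk i = (j, k) := Option.some.inj hijk
        obtain ⟨⟨-, -, ⟨-, g1⟩, -, g2⟩, -⟩ := hjk i hi
        rw [hjk'] at g1 g2
        simp only [Complex.sub_im] at g1 g2
        constructor <;> simp only <;> linarith
      · rw [hsn i hi] at hijk
        exact absurd hijk (by simp)
    · rw [le_div_iff₀ hε₁p]
      refine le_trans ?_ hSle
      calc (nn s : ℝ) * ε₁ = ∑ _i ∈ Finset.univ.filter (fun i => s i = none), ε₁ := by
            rw [Finset.sum_const, nsmul_eq_mul]; rfl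
        _ ≤ ∑ i ∈ Finset.univ.filter (fun i => s i = none), ex x i := by
            refine Finset.sum_le_sum fun i hi => ?_
            rw [Finset.mem_filter] at hi
            by_contra hcon
            push Not at hcon
            have := hsi i hcon
            rw [this] at hi
            exact absurd hi.2 (by simp)
        _ ≤ ∑ i, ex x i := Finset.sum_le_sum_of_subset_of_nonneg (Finset.filter_subset _ _)
            fun i _ _ => (hex i).1
  · have hterm : ∀ i, ENNReal.ofReal (Real.exp (-(2 * C * ex x i) / δ)) ≤ ff δ (cO e) s i x := by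
      intro i
      by_cases hi : ex x i < ε₁
      · obtain ⟨g1, g2⟩ := hjk i hi
        unfold ff
        rw [hsi i hi]
        simp only
        unfold kern
        rw [if_pos g1]
        refine ENNReal.ofReal_le_ofReal (Real.exp_le_exp.2 ?_)
        exact div_le_div_of_nonneg_right (neg_le_neg g2) hδ.le
      · unfold ff
        rw [hsn i hi]
        simp only
        rw [indicator_of_mem (by rw [he]; exact mem_Q (hbox i))]
        rw [ENNReal.ofReal_le_one, Real.exp_le_one_iff]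
        have := (hex i).1
        exact div_nonpos_of_nonpos_of_nonneg (by nlinarith) hδ.le
    have hprod : ENNReal.ofReal (Real.exp (-(2 * C * L ^ 2))) ≤ ∏ i, ff δ (cO e) s i x := by
      calc ENNReal.ofReal (Real.exp (-(2 * C * L ^ 2)))
          ≤ ENNReal.ofReal (∏ i, Real.exp (-(2 * C * ex x i) / δ)) := by
            refine ENNReal.ofReal_le_ofReal ?_
            rw [← Real.exp_sum]
            refine Real.exp_le_exp.2 ?_
            have h1 : ∑ i, -(2 * C * ex x i) / δ = -(2 * C * (∑ i, ex x i) / δ) := by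
              rw [Finset.mul_sum, Finset.sum_div, ← Finset.sum_neg_distrib]
              exact Finset.sum_congr rfl fun i _ => by ring
            rw [h1]
            have h2 : 2 * C * (∑ i, ex x i) / δ ≤ 2 * C * L ^ 2 := by
              rw [div_le_iff₀ hδ]
              calc 2 * C * ∑ i, ex x i ≤ 2 * C * (δ * L ^ 2) :=
                    mul_le_mul_of_nonneg_left hSle (by positivity)
                _ = _ := by ring
            linarith
        _ = ∏ i, ENNReal.ofReal (Real.exp (-(2 * C * ex x i) / δ)) :=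
            ENNReal.ofReal_prod_of_nonneg fun i _ => (Real.exp_pos _).le
        _ ≤ _ := Finset.prod_le_prod' fun i _ => hterm i
    calc (1 : ENNReal) = ENNReal.ofReal (Real.exp (2 * C * L ^ 2)) *
          ENNReal.ofReal (Real.exp (-(2 * C * L ^ 2))) := by
          rw [← ENNReal.ofReal_mul (Real.exp_pos _).le, ← Real.exp_add, add_neg_cancel,
            Real.exp_zero, ENNReal.ofReal_one]
      _ ≤ _ := mul_le_mul_right hprod _

end Pool.Agent.J4.H83.FV
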