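import Pool.Agent.J4.H83.FV.Upper2

/-!
# The upper bound for the volume of the configuration space: conclusion
-/

set_option autoImplicit false

open MeasureTheory Set

namespace Pool.Agent.J4.H83.FV

lemma exp_ten : (14642 : ℝ) ≤ Real.exp 10 := by
  have h1 := Real.exp_one_gt_d9
  have h2 : Real.exp 10 = Real.exp 1 ^ 10 := by rw [← Real.exp_nat_mul]; norm_num
  rw [h2]
  calc (14642 : ℝ) ≤ 2.7 ^ 10 := by norm_num
    _ ≤ Real.exp 1 ^ 10 := pow_le_pow_left₀ (by norm_num) (by linarith) 10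

theorem upper : ∃ K : ℝ, 0 < K ∧ ∀ (N : ℕ) (L δ : ℝ), 1 ≤ L → 0 < δ →
    (L + 2 * R) ^ 2 - √3 / 2 * N ≤ δ * L ^ 2 →
      volume (A N L) ≤ ENNReal.ofReal (N.factorial * Real.exp (K * L ^ 2) * δ ^ (2 * N)) := by
  obtain ⟨ε₁, hε, C, hC, hcov⟩ := cover
  refine ⟨C + 200 + 2 / ε₁, by positivity, fun N L δ hL hδ hsum => ?_⟩
  classical
  rcases (A N L).eq_empty_or_nonempty with hemp | ⟨x₀, hx₀⟩
  · rw [hemp]; simp
  have hL0 : 0 ≤ L := by linarith
  set m := ⌊2 * L⌋₊ + 1 with hm
  set B := δ * L ^ 2 / ε₁ with hB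
  -- the number of the points
  have hm3 : (m : ℝ) ≤ 3 * L := by
    have := Nat.floor_le (show 0 ≤ 2 * L by linarith)
    rw [hm]; push_cast; linarith
  have hNm : N ≤ m * m := by
    obtain ⟨e, -⟩ := hcov N L δ hL0 hδ hsum x₀ hx₀
    have := Fintype.card_le_of_embedding e
    simpa using this
  have hmm : ((m * m : ℕ) : ℝ) ≤ 9 * L ^ 2 := by
    push_cast
    have : (0 : ℝ) ≤ m := Nat.cast_nonneg _
    nlinarith
  have hN9 : (N : ℝ) ≤ 9 * L ^ 2 := le_trans (by exact_mod_cast hNm) hmm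
  -- the covering function
  set F : (Fin N → ℂ) → ENNReal := fun x => ∑ e : Fin N ↪ Fin m × Fin m, ∑ s ∈ Str B e,
    ENNReal.ofReal (Real.exp (C * L ^ 2)) * ∏ i, ff δ (cO e) s i x with hF
  have hFm : Measurable F := by
    refine Finset.measurable_fun_sum _ fun e _ => Finset.measurable_fun_sum _ fun s _ => ?_
    exact (Finset.measurable_fun_prod _ fun i _ => ff_meas δ _ _ _).const_mul _
  have hsub : A N L ⊆ {x | 1 ≤ F x} := by
    intro x hx
    obtain ⟨e, s, hs, h1⟩ := hcov N L δ hL0 hδ hsum x hx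
    show 1 ≤ F x
    refine h1.trans ?_
    refine le_trans ?_ (Finset.single_le_sum (f := fun e : Fin N ↪ Fin m × Fin m =>
      ∑ s ∈ Str B e, ENNReal.ofReal (Real.exp (C * L ^ 2)) * ∏ i, ff δ (cO e) s i x)
      (fun _ _ => zero_le) (Finset.mem_univ e))
    exact Finset.single_le_sum (f := fun s => ENNReal.ofReal (Real.exp (C * L ^ 2)) *
      ∏ i, ff δ (cO e) s i x) (fun _ _ => zero_le) hs
  have hmark := mul_meas_ge_le_lintegral (μ := volume) hFm 1
  rw [one_mul] at hmark
  -- the integral of one term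
  have hB1 : ∀ s : Fin N → Option (Fin N × Fin N), (nn s : ℝ) ≤ B →
      (1 / δ) ^ (2 * nn s) ≤ Real.exp (2 / ε₁ * L ^ 2) := by
    intro s hs
    have h1 : 1 / δ ≤ Real.exp (1 / δ) := by
      have := Real.add_one_le_exp (1 / δ)
      linarith
    calc (1 / δ) ^ (2 * nn s) ≤ Real.exp (1 / δ) ^ (2 * nn s) :=
          pow_le_pow_left₀ (by positivity) h1 _
      _ = Real.exp ((2 * nn s : ℕ) * (1 / δ)) := by rw [← Real.exp_nat_mul]
      _ ≤ _ := by
          refine Real.exp_le_exp.2 ?_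
          push_cast
          have h2 : (nn s : ℝ) * (1 / δ) ≤ B * (1 / δ) :=
            mul_le_mul_of_nonneg_right hs (by positivity)
          have h3 : B * (1 / δ) = L ^ 2 / ε₁ := by rw [hB]; field_simp
          have h4 : 2 / ε₁ * L ^ 2 = 2 * (L ^ 2 / ε₁) := by ring
          rw [h4, ← h3]
          linarith
  have hterm : ∀ e : Fin N ↪ Fin m × Fin m, ∀ s ∈ Str B e,
      ∫⁻ x, ENNReal.ofReal (Real.exp (C * L ^ 2)) * ∏ i, ff δ (cO e) s i x ≤
        ENNReal.ofReal (Real.exp ((C + 90 + 2 / ε₁) * L ^ 2) * δ ^ (2 * N)) := by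
    intro e s hs
    rw [Str, Finset.mem_filter] at hs
    rw [lintegral_const_mul' _ _ ENNReal.ofReal_ne_top]
    refine (mul_le_mul_right (int_ff hδ (cO e) s hs.2.1) _).trans ?_
    rw [← ENNReal.ofReal_mul (Real.exp_pos _).le]
    refine ENNReal.ofReal_le_ofReal ?_
    have h1 : (10000 : ℝ) ^ N ≤ Real.exp (90 * L ^ 2) := by
      calc (10000 : ℝ) ^ N ≤ Real.exp 10 ^ N :=
            pow_le_pow_left₀ (by norm_num) (by linarith [exp_ten]) _
        _ = Real.exp (N * 10) := by rw [← Real.exp_nat_mul]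
        _ ≤ _ := Real.exp_le_exp.2 (by linarith)
    have h2 := hB1 s hs.2.2
    have h3 : Real.exp ((C + 90 + 2 / ε₁) * L ^ 2) =
        Real.exp (C * L ^ 2) * Real.exp (90 * L ^ 2) * Real.exp (2 / ε₁ * L ^ 2) := by
      rw [← Real.exp_add, ← Real.exp_add]; congr 1; ring
    rw [h3]
    calc Real.exp (C * L ^ 2) * (10000 ^ N * δ ^ (2 * N) * (1 / δ) ^ (2 * nn s))
        = Real.exp (C * L ^ 2) * 10000 ^ N * (1 / δ) ^ (2 * nn s) * δ ^ (2 * N) := by ring
      _ ≤ _ := by
          refine mul_le_mul_of_nonneg_right ?_ (by positivity)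
          exact mul_le_mul (mul_le_mul_of_nonneg_left h1 (Real.exp_pos _).le) h2 (by positivity)
            (by positivity)
  have hcardE : Fintype.card (Fin N ↪ Fin m × Fin m) ≤ N.factorial * 2 ^ (m * m) := by
    rw [Fintype.card_embedding_eq, Nat.descFactorial_eq_factorial_mul_choose]
    simp only [Fintype.card_prod, Fintype.card_fin]
    exact Nat.mul_le_mul_left _ (Nat.choose_le_two_pow _ _)
  calc volume (A N L) ≤ ∫⁻ x, F x := (measure_mono hsub).trans hmark
    _ = ∑ e : Fin N ↪ Fin m × Fin m, ∑ s ∈ Str B e,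
        ∫⁻ x, ENNReal.ofReal (Real.exp (C * L ^ 2)) * ∏ i, ff δ (cO e) s i x := by
        rw [hF, lintegral_finset_sum]
        · refine Finset.sum_congr rfl fun e _ => ?_
          rw [lintegral_finset_sum]
          intro s _
          exact (Finset.measurable_fun_prod _ fun i _ => ff_meas δ _ _ _).const_mul _
        · intro e _
          refine Finset.measurable_fun_sum _ fun s _ => ?_
          exact (Finset.measurable_fun_prod _ fun i _ => ff_meas δ _ _ _).const_mul _
    _ ≤ ∑ e : Fin N ↪ Fin m × Fin m, ∑ s ∈ Str B e,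
        ENNReal.ofReal (Real.exp ((C + 90 + 2 / ε₁) * L ^ 2) * δ ^ (2 * N)) :=
        Finset.sum_le_sum fun e _ => Finset.sum_le_sum fun s hs => hterm e s hs
    _ = ∑ e : Fin N ↪ Fin m × Fin m, ((Str B e).card : ENNReal) *
        ENNReal.ofReal (Real.exp ((C + 90 + 2 / ε₁) * L ^ 2) * δ ^ (2 * N)) := by
        refine Finset.sum_congr rfl fun e _ => ?_
        rw [Finset.sum_const, nsmul_eq_mul]
    _ ≤ ∑ _e : Fin N ↪ Fin m × Fin m, ((14642 ^ N : ℕ) : ENNReal) *
        ENNReal.ofReal (Real.exp ((C + 90 + 2 / ε₁) * L ^ 2) * δ ^ (2 * N)) := by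
        refine Finset.sum_le_sum fun e _ => mul_le_mul_left ?_ _
        exact_mod_cast card_Str B e
    _ = (Fintype.card (Fin N ↪ Fin m × Fin m) : ENNReal) * (((14642 ^ N : ℕ) : ENNReal) *
        ENNReal.ofReal (Real.exp ((C + 90 + 2 / ε₁) * L ^ 2) * δ ^ (2 * N))) := by
        rw [Finset.sum_const, nsmul_eq_mul, Finset.card_univ]
    _ ≤ ((N.factorial * 2 ^ (m * m) : ℕ) : ENNReal) * (((14642 ^ N : ℕ) : ENNReal) *
        ENNReal.ofReal (Real.exp ((C + 90 + 2 / ε₁) * L ^ 2) * δ ^ (2 * N))) := by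
        refine mul_le_mul_left ?_ _
        exact_mod_cast hcardE
    _ = ENNReal.ofReal (((N.factorial * 2 ^ (m * m) : ℕ) : ℝ) * (((14642 ^ N : ℕ) : ℝ) *
        (Real.exp ((C + 90 + 2 / ε₁) * L ^ 2) * δ ^ (2 * N)))) := by
        rw [ENNReal.ofReal_mul (Nat.cast_nonneg _), ENNReal.ofReal_mul (Nat.cast_nonneg _),
          ENNReal.ofReal_natCast, ENNReal.ofReal_natCast]
    _ ≤ _ := by
        refine ENNReal.ofReal_le_ofReal ?_
        have h1 : ((14642 ^ N : ℕ) : ℝ) ≤ Real.exp (90 * L ^ 2) := by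
          push_cast
          calc (14642 : ℝ) ^ N ≤ Real.exp 10 ^ N :=
                pow_le_pow_left₀ (by norm_num) (by linarith [exp_ten]) _
            _ = Real.exp (N * 10) := by rw [← Real.exp_nat_mul]
            _ ≤ _ := Real.exp_le_exp.2 (by linarith)
        have h2 : (2 : ℝ) ^ (m * m) ≤ Real.exp (9 * L ^ 2) := by
          calc (2 : ℝ) ^ (m * m) ≤ Real.exp 1 ^ (m * m) :=
                pow_le_pow_left₀ (by norm_num) (by linarith [Real.exp_one_gt_d9]) _
            _ = Real.exp ((m * m : ℕ) * 1) := by rw [← Real.exp_nat_mul]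
            _ ≤ _ := Real.exp_le_exp.2 (by linarith)
        have h3 : Real.exp ((C + 200 + 2 / ε₁) * L ^ 2) = Real.exp (9 * L ^ 2) *
            (Real.exp (90 * L ^ 2) * Real.exp ((C + 90 + 2 / ε₁) * L ^ 2)) *
              Real.exp (11 * L ^ 2) := by
          rw [← Real.exp_add, ← Real.exp_add, ← Real.exp_add]; congr 1; ring
        have h4 : 1 ≤ Real.exp (11 * L ^ 2) := Real.one_le_exp (by positivity)
        rw [h3]
        push_cast at h1 ⊢
        calc (N.factorial : ℝ) * 2 ^ (m * m) * (14642 ^ N *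
              (Real.exp ((C + 90 + 2 / ε₁) * L ^ 2) * δ ^ (2 * N)))
            = N.factorial * (2 ^ (m * m) * (14642 ^ N * Real.exp ((C + 90 + 2 / ε₁) * L ^ 2)) * 1) *
              δ ^ (2 * N) := by ring
          _ ≤ _ := by
              refine mul_le_mul_of_nonneg_right (mul_le_mul_of_nonneg_left ?_
                (Nat.cast_nonneg _)) (by positivity)
              refine mul_le_mul ?_ h4 zero_le_one (by positivity)
              exact mul_le_mul h2 (mul_le_mul_of_nonneg_right h1 (Real.exp_pos _).le)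
                (by positivity) (by positivity)

end Pool.Agent.J4.H83.FV
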