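import Pool.Agent.J4.H83.FV.Geo

/-!
# The areas of sectors and caps
-/

set_option autoImplicit false

open MeasureTheory Set

namespace Pool.Agent.J4.H83.FV

lemma vol_sec {d φ : ℝ} (hd : 0 < d) (hφ : 0 ≤ φ) (hφ2 : φ < Real.pi / 2)
    (hc : d = 2 * R * Real.cos φ) : volume (sec (d : ℂ)) = ENNReal.ofReal (φ / 3) := by
  have hR := R_pos
  have hpi := Real.pi_pos
  have hsub : Ioo 0 R ×ˢ Ioo (-φ) φ ⊆ polarCoord.target := by
    rintro p ⟨h1, h2⟩
    rw [polarCoord_target]
    refine ⟨h1.1, ?_, ?_⟩ <;> [linarith [h2.1]; linarith [h2.2]]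
  have key : ∀ p ∈ polarCoord.target, (Complex.polarCoord.symm p ∈ sec (d : ℂ) ↔
      p ∈ Ioo 0 R ×ˢ Ioo (-φ) φ) := by
    intro p hp
    rw [polarCoord_target] at hp
    obtain ⟨hp1, hp2⟩ := hp
    have hp1' : 0 < p.1 := hp1
    have e1 : ‖Complex.polarCoord.symm p‖ = p.1 := by
      rw [Complex.norm_polarCoord_symm, abs_of_pos hp1']
    have e2 : (Complex.polarCoord.symm p).re = p.1 * Real.cos p.2 := by
      rw [Complex.polarCoord_symm_apply]
      simp
      exact Or.inl (Complex.cos_ofReal_re _)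
    simp only [sec, mem_setOf_eq, e1, e2, Complex.norm_real, Complex.ofReal_re, Complex.ofReal_im,
      mul_zero, add_zero, mem_prod, mem_Ioo]
    have e3 : ‖d‖ ^ 2 * p.1 < 2 * R * (p.1 * Real.cos p.2 * d) ↔ Real.cos φ < Real.cos p.2 := by
      rw [Real.norm_eq_abs, sq_abs]
      have : d ^ 2 * p.1 = (2 * R * p.1 * d) * Real.cos φ := by
        conv_lhs => rw [pow_two]; rw [hc]
        rw [hc]; ring
      rw [this, show 2 * R * (p.1 * Real.cos p.2 * d) = (2 * R * p.1 * d) * Real.cos p.2 by ring]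
      exact mul_lt_mul_iff_right₀ (by positivity)
    rw [e3]
    have e4 : Real.cos φ < Real.cos p.2 ↔ |p.2| < φ := by
      rw [← Real.cos_abs p.2]
      have h5 : |p.2| ∈ Icc 0 Real.pi := ⟨abs_nonneg _, abs_le.2 ⟨hp2.1.le, hp2.2.le⟩⟩
      exact Real.strictAntiOn_cos.lt_iff_gt ⟨hφ, by linarith⟩ h5
    rw [e4, abs_lt]
    tauto
  have h1 : volume (sec (d : ℂ)) = ∫⁻ z, (sec (d : ℂ)).indicator (fun _ => (1 : ENNReal)) z := by
    rw [lintegral_indicator (sec_meas _), setLIntegral_const, one_mul]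
  rw [h1, ← Complex.lintegral_comp_polarCoord_symm]
  have h2 : ∫⁻ p in polarCoord.target, ENNReal.ofReal p.1 •
      (sec (d : ℂ)).indicator (fun _ => (1 : ENNReal)) (Complex.polarCoord.symm p) =
      ∫⁻ p in polarCoord.target, (Ioo 0 R ×ˢ Ioo (-φ) φ).indicator
        (fun p => ENNReal.ofReal p.1) p := by
    refine setLIntegral_congr_fun polarCoord.open_target.measurableSet fun p hp => ?_
    by_cases h : p ∈ Ioo 0 R ×ˢ Ioo (-φ) φ
    · rw [indicator_of_mem h, indicator_of_mem ((key p hp).2 h), smul_eq_mul, mul_one]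
    · rw [indicator_of_notMem h, indicator_of_notMem (fun h' => h ((key p hp).1 h')), smul_zero]
  rw [h2, setLIntegral_indicator (measurableSet_Ioo.prod measurableSet_Ioo),
    inter_eq_left.2 hsub, Measure.volume_eq_prod, ← Measure.prod_restrict]
  have h3 := lintegral_prod_mul (μ := volume.restrict (Ioo (0 : ℝ) R))
    (ν := volume.restrict (Ioo (-φ) φ)) (f := fun r => ENNReal.ofReal r) (g := fun _ => 1)
    (by fun_prop) (by fun_prop)
  simp only [mul_one] at h3
  rw [h3, setLIntegral_const, one_mul, Real.volume_Ioo]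
  have h4 : ∫⁻ r in Ioo (0 : ℝ) R, ENNReal.ofReal r = ENNReal.ofReal (R ^ 2 / 2) := by
    rw [← ofReal_integral_eq_lintegral_ofReal]
    · congr 1
      rw [← integral_Ioc_eq_integral_Ioo, ← intervalIntegral.integral_of_le hR.le, integral_id]
      ring
    · exact (continuous_id.integrableOn_Icc).mono_set Ioo_subset_Icc_self
    · rw [Filter.EventuallyLE, ae_restrict_iff' measurableSet_Ioo]
      exact Filter.Eventually.of_forall fun x hx => hx.1.le
  rw [h4, ← ENNReal.ofReal_mul (by positivity), R_sq]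
  congr 1
  ring

/-- the triangle between the centre and the chord -/
def tri (d t : ℝ) : Set ℂ := {z | 0 < z.re ∧ z.re < d / 2 ∧ |z.im| < z.re * t}

lemma vol_tri {d t : ℝ} (hd : 0 < d) (ht : 0 ≤ t) :
    volume (tri d t) = ENNReal.ofReal ((d / 2) ^ 2 * t) := by
  have h1 : volume (tri d t) =
      volume (regionBetween (fun x : ℝ => -(x * t)) (fun x => x * t) (Ioo 0 (d / 2))) := by
    rw [← Complex.volume_preserving_equiv_real_prod.measure_preimage_equiv]
    congr 1
    ext z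
    simp only [tri, regionBetween, mem_preimage, mem_setOf_eq, Complex.measurableEquivRealProd_apply,
      mem_Ioo, abs_lt]
    tauto
  rw [h1, Measure.volume_eq_prod, volume_regionBetween_eq_integral]
  · congr 1
    rw [← integral_Ioc_eq_integral_Ioo, ← intervalIntegral.integral_of_le (by positivity)]
    simp only [Pi.sub_apply, sub_neg_eq_add]
    have : ∀ x : ℝ, x * t + x * t = (2 * t) * x := fun x => by ring
    simp_rw [this]
    rw [intervalIntegral.integral_const_mul, integral_id]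
    ring
  · exact (Continuous.integrableOn_Icc (by fun_prop)).mono_set Ioo_subset_Icc_self
  · exact (Continuous.integrableOn_Icc (by fun_prop)).mono_set Ioo_subset_Icc_self
  · exact measurableSet_Ioo
  · intro x hx
    have : 0 ≤ x * t := mul_nonneg hx.1.le ht
    linarith

lemma sec_eq {d φ : ℝ} (hd : 0 < d) (hφ : 0 ≤ φ) (hφ2 : φ < Real.pi / 2)
    (hc : d = 2 * R * Real.cos φ) :
    sec (d : ℂ) = cap (d : ℂ) ∪ tri d (Real.tan φ) ∧ Disjoint (cap (d : ℂ)) (tri d (Real.tan φ)) := by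
  have hR := R_pos
  have hcos : 0 < Real.cos φ := Real.cos_pos_of_mem_Ioo ⟨by linarith [Real.pi_pos], hφ2⟩
  have hsin : 0 ≤ Real.sin φ := Real.sin_nonneg_of_nonneg_of_le_pi hφ (by linarith [Real.pi_pos])
  have hsc := Real.sin_sq_add_cos_sq φ
  have c1 : ∀ z : ℂ, ‖z - d‖ ≤ ‖z‖ ↔ d / 2 ≤ z.re := by
    intro z
    rw [← sq_le_sq₀ (norm_nonneg _) (norm_nonneg _), nsq, nsq, Complex.sub_re, Complex.sub_im,
      Complex.ofReal_re, Complex.ofReal_im]
    constructor
    · intro h; nlinarith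
    · intro h; nlinarith
  have c2 : ∀ z : ℂ, ‖(d : ℂ)‖ ^ 2 * ‖z‖ < 2 * R * (z.re * (d : ℂ).re + z.im * (d : ℂ).im) ↔
      Real.cos φ * ‖z‖ < z.re := by
    intro z
    rw [Complex.norm_real, Real.norm_eq_abs, sq_abs, Complex.ofReal_re, Complex.ofReal_im, mul_zero,
      add_zero]
    have e : d ^ 2 * ‖z‖ = (2 * R * d) * (Real.cos φ * ‖z‖) := by
      conv_lhs => rw [pow_two]; arg 1; arg 1; rw [hc]
      ring
    rw [e, show 2 * R * (z.re * d) = (2 * R * d) * z.re by ring]
    exact mul_lt_mul_iff_right₀ (by positivity)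
  have c3 : ∀ z : ℂ, 0 < z.re → (Real.cos φ * ‖z‖ < z.re ↔ |z.im| < z.re * Real.tan φ) := by
    intro z hz
    rw [Real.tan_eq_sin_div_cos, mul_div_assoc', lt_div_iff₀ hcos]
    have a1 : Real.cos φ * ‖z‖ < z.re ↔ (Real.cos φ * ‖z‖) ^ 2 < z.re ^ 2 :=
      (sq_lt_sq₀ (by positivity) hz.le).symm
    have a2 : |z.im| * Real.cos φ < z.re * Real.sin φ ↔
        (|z.im| * Real.cos φ) ^ 2 < (z.re * Real.sin φ) ^ 2 :=
      (sq_lt_sq₀ (by positivity) (by positivity)).symm
    rw [a1, a2, mul_pow, nsq, mul_pow, mul_pow, sq_abs]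
    have e : Real.cos φ ^ 2 * (z.re ^ 2 + z.im ^ 2) = Real.cos φ ^ 2 * z.re ^ 2 + z.im ^ 2 * Real.cos φ ^ 2 := by
      ring
    have e2 : z.re ^ 2 = Real.cos φ ^ 2 * z.re ^ 2 + z.re ^ 2 * Real.sin φ ^ 2 := by
      linear_combination (-z.re ^ 2) * hsc
    rw [e]
    constructor
    · intro h; linarith
    · intro h; linarith
  constructor
  · ext z
    simp only [sec, cap, tri, mem_union, mem_setOf_eq, c1, c2]
    constructor
    · rintro ⟨h0, h1, h2⟩
      have hre : 0 < z.re := lt_trans (by positivity) h2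
      rcases le_or_gt (d / 2) z.re with h | h
      · exact Or.inl ⟨h1, h⟩
      · exact Or.inr ⟨hre, h, (c3 z hre).1 h2⟩
    · rintro (⟨h1, h2⟩ | ⟨h1, h2, h3⟩)
      · have hre : 0 < z.re := by linarith
        have h0 : 0 < ‖z‖ := by
          rw [norm_pos_iff]; rintro rfl; simp at hre
        refine ⟨h0, h1, ?_⟩
        have : Real.cos φ * ‖z‖ < Real.cos φ * R := mul_lt_mul_of_pos_left h1 hcos
        have h5 : Real.cos φ * R = d / 2 := by rw [hc]; ring
        linarith
      · have h0 : 0 < ‖z‖ := by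
          rw [norm_pos_iff]; rintro rfl; simp at h1
        have h4 := (c3 z h1).2 h3
        refine ⟨h0, ?_, h4⟩
        have h5 : Real.cos φ * R = d / 2 := by rw [hc]; ring
        have : Real.cos φ * ‖z‖ < Real.cos φ * R := by rw [h5]; linarith
        exact lt_of_mul_lt_mul_left this hcos.le
  · rw [Set.disjoint_left]
    rintro z ⟨-, h2⟩ ⟨-, h4, -⟩
    have := (c1 z).1 h2
    linarith

lemma tri_meas (d t : ℝ) : MeasurableSet (tri d t) := by
  have h : tri d t = {z : ℂ | 0 < z.re} ∩ ({z : ℂ | z.re < d / 2} ∩ {z : ℂ | |z.im| < z.re * t}) := rfl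
  have h1 : Measurable fun z : ℂ => z.re := Complex.measurable_re
  have h2 : Measurable fun z : ℂ => z.im := Complex.measurable_im
  rw [h]
  refine (measurableSet_lt measurable_const h1).inter ((measurableSet_lt h1 measurable_const).inter
    (measurableSet_lt ?_ (h1.mul_const _)))
  exact continuous_abs.measurable.comp h2

lemma vol_cap {d φ : ℝ} (hd : 0 < d) (hφ : 0 ≤ φ) (hφ2 : φ < Real.pi / 2)
    (hc : d = 2 * R * Real.cos φ) :
    (volume (cap (d : ℂ))).toReal = (φ - Real.sin φ * Real.cos φ) / 3 := by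
  obtain ⟨h1, h2⟩ := sec_eq hd hφ hφ2 hc
  have hcos : 0 < Real.cos φ := Real.cos_pos_of_mem_Ioo ⟨by linarith [Real.pi_pos], hφ2⟩
  have hsin : 0 ≤ Real.sin φ := Real.sin_nonneg_of_nonneg_of_le_pi hφ (by linarith [Real.pi_pos])
  have htan : 0 ≤ Real.tan φ := by rw [Real.tan_eq_sin_div_cos]; positivity
  have h3 := vol_sec hd hφ hφ2 hc
  rw [h1, measure_union h2 (tri_meas _ _), vol_tri hd htan] at h3
  have hfin : volume (cap (d : ℂ)) ≠ ⊤ :=
    ((measure_mono (cap_sub _)).trans_lt measure_ball_lt_top).ne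
  have h4 := congrArg ENNReal.toReal h3
  rw [ENNReal.toReal_add hfin ENNReal.ofReal_ne_top, ENNReal.toReal_ofReal (by positivity),
    ENNReal.toReal_ofReal (by positivity)] at h4
  have h5 : (d / 2) ^ 2 * Real.tan φ = Real.sin φ * Real.cos φ / 3 := by
    rw [hc, Real.tan_eq_sin_div_cos]
    have := R_sq
    have e : (2 * R * Real.cos φ / 2) ^ 2 * (Real.sin φ / Real.cos φ) =
        R ^ 2 * Real.sin φ * (Real.cos φ ^ 2 / Real.cos φ) := by ring
    have e2 : Real.cos φ ^ 2 / Real.cos φ = Real.cos φ := by field_simp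
    rw [e, e2, this]
    ring
  rw [h5] at h4
  linarith

end Pool.Agent.J4.H83.FV
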